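import Mathlib

/-!
Definitions for the question on Hilbert systems without Hilbert-representable factors.
-/

open MeasureTheory

namespace Pool.Agent.Helper44.Hilb

/-- The circle `𝕋 = ℝ / 2πℤ`. -/
abbrev TT := AddCircle (2 * Real.pi)

/-- The transform `n ↦ ∫ e^{int} dμ(t)` of a positive Borel measure `μ` on `𝕋`. -/
noncomputable def hatm (μ : Measure TT) (n : ℤ) : ℂ := ∫ t, fourier n t ∂μ

/-- `f ∈ B(ℤ)`: `f` is the transform of a complex Borel measure on `𝕋`. A complex Borel measure is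
written as `(μ₀ - μ₁) + i (μ₂ - μ₃)` with four finite positive Borel measures. -/
def InB (f : ℤ → ℂ) : Prop :=
  ∃ μ₀ μ₁ μ₂ μ₃ : Measure TT, IsFiniteMeasure μ₀ ∧ IsFiniteMeasure μ₁ ∧ IsFiniteMeasure μ₂ ∧
    IsFiniteMeasure μ₃ ∧
    ∀ n : ℤ, f n = (hatm μ₀ n - hatm μ₁ n) + Complex.I * (hatm μ₂ n - hatm μ₃ n)

/-- `f ∈ H(ℤ)`: `f` is in the sup-norm closure of `B(ℤ)`. -/
def InH (f : ℤ → ℂ) : Prop := ∀ ε > (0 : ℝ), ∃ g : ℤ → ℂ, InB g ∧ ∀ n, ‖f n - g n‖ ≤ ε

/-- `x₀` is a transitive point of the system `(X,T)`: its orbit `{T^n x₀ : n ∈ ℤ}` is dense. -/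
def IsTransitivePt {X : Type*} [TopologicalSpace X] (T : X ≃ₜ X) (x₀ : X) : Prop :=
  Dense (Set.range fun n : ℤ => (T ^ n) x₀)

/-- `(X,T)` is recurrent-transitive: it has a transitive point and `X` has no isolated points. -/
def RecurrentTransitive {X : Type*} [TopologicalSpace X] (T : X ≃ₜ X) : Prop :=
  (∃ x₀, IsTransitivePt T x₀) ∧ ∀ x : X, ¬ IsOpen ({x} : Set X)

/-- `(X,T)` is a Hilbert system: it is point-transitive, and for every transitive point `x₀` the
algebra `A(X,x₀) = {(F(T^n x₀))_n : F ∈ C(X)}` is contained in `H(ℤ)`. -/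
def IsHilbertSystem {X : Type*} [TopologicalSpace X] (T : X ≃ₜ X) : Prop :=
  (∃ x₀, IsTransitivePt T x₀) ∧
    ∀ x₀, IsTransitivePt T x₀ → ∀ F : C(X, ℂ), InH fun n => F ((T ^ n) x₀)

/-- A factor map `π : (X,T) → (Y,R)` of systems: a continuous surjection with `π ∘ T = R ∘ π`. -/
def IsFactorMap {X Y : Type*} [TopologicalSpace X] [TopologicalSpace Y] (T : X ≃ₜ X) (R : Y ≃ₜ Y)
    (π : X → Y) : Prop :=
  Continuous π ∧ Function.Surjective π ∧ ∀ x, π (T x) = R (π x)

/-- The inner product space `E` with its weak topology (Mathlib's `WeakSpace ℂ E`). -/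
def Weak (E : Type*) [NormedAddCommGroup E] [InnerProductSpace ℂ E] : Type _ := WeakSpace ℂ E

/-- The weak topology (Mathlib's topology on `WeakSpace ℂ E`). -/
noncomputable instance weakTopology (E : Type*) [NormedAddCommGroup E] [InnerProductSpace ℂ E] :
    TopologicalSpace (Weak E) := instTopologicalSpaceWeakSpace ℂ E

/-- The identity map from `E` to `E` with the weak topology. -/
noncomputable def toWeak {E : Type*} [NormedAddCommGroup E] [InnerProductSpace ℂ E] (x : E) :
    Weak E := toWeakSpace ℂ E x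

/-- The identity map from `E` with the weak topology to `E`. -/
noncomputable def ofWeak {E : Type*} [NormedAddCommGroup E] [InnerProductSpace ℂ E] (x : Weak E) :
    E := (toWeakSpace ℂ E).symm x

/-- A unitary operator `U : E → E`, seen as a map on `E` with the weak topology. -/
noncomputable def weakMap {E : Type*} [NormedAddCommGroup E] [InnerProductSpace ℂ E]
    (U : E ≃ₗᵢ[ℂ] E) (x : Weak E) : Weak E :=
  toWeak (U (ofWeak x))

/-- `(Y,R)` is Hilbert-representable: it is isomorphic to `(Z, U|_Z)`, where `U` is a unitary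
operator on a (complex) Hilbert space `E` and `Z ⊆ E` is weakly compact and `U`-invariant, with the
weak topology. -/
def HilbertRepresentable.{u, v} {Y : Type v} [TopologicalSpace Y] (R : Y ≃ₜ Y) : Prop :=
  ∃ (E : Type u) (_ : NormedAddCommGroup E) (_ : InnerProductSpace ℂ E) (_ : CompleteSpace E)
    (U : E ≃ₗᵢ[ℂ] E) (Z : Set (Weak E)) (e : Y ≃ₜ Z),
    IsCompact Z ∧ (∀ x : Weak E, x ∈ Z ↔ weakMap U x ∈ Z) ∧
      ∀ y : Y, (e (R y) : Weak E) = weakMap U (e y)

end Pool.Agent.Helper44.Hilb
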