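import Pool.Agent.Helper44.Hilb.Defs

/-!
Proof that a certain explicit metrizable recurrent-transitive Hilbert system has no nontrivial
Hilbert-representable factor.

Idea: `f(n) = ∏_j ((1 + c_j)/2 + (1 - c_j)/2 * cos (π n / 2^(j^2)))` is the transform of a
probability measure, `0 ≤ f ≤ 1`, and `f(n + k_i) → d f(n)` along suitable sequences `k_i`, where
`d = 2^(-1/(m+1))`. The system is the orbit closure `Y` of `g ∘ f`, `g(t) = max (t - 1/2) 0`.
If a matrix coefficient of a unitary operator is (up to a constant) a continuous function on the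
orbit, then the weak limit `V` of the powers `U^{k_i}` is normal and some power of it annihilates
the relevant vector, hence so does `V`; letting `m → ∞` the coefficient is constant.
-/

open MeasureTheory Filter Topology

namespace Pool.Agent.Helper44.Hilb

section Operator

variable {E : Type*} [NormedAddCommGroup E] [InnerProductSpace ℂ E] [CompleteSpace E]

theorem zpow_add_app {E : Type*} [NormedAddCommGroup E] [InnerProductSpace ℂ E]
    (U : E ≃ₗᵢ[ℂ] E) (a b : ℤ) (x : E) : (U ^ a) ((U ^ b) x) = (U ^ (a + b)) x := by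
  rw [zpow_add]; rfl

/-- weak limit operator of a sequence of powers along an ultrafilter -/
theorem exists_limit_operator (U : E ≃ₗᵢ[ℂ] E) (k : ℕ → ℤ) :
    ∃ V : E →L[ℂ] E, ∀ x y : E,
      Tendsto (fun i => inner ℂ y ((U ^ (k i)) x)) (hyperfilter ℕ : Filter ℕ)
        (𝓝 (inner ℂ y (V x))) := by
  have hb : ∀ x y : E, ∃ l : ℂ, ‖l‖ ≤ ‖y‖ * ‖x‖ ∧
      Tendsto (fun i => inner ℂ y ((U ^ (k i)) x)) (hyperfilter ℕ : Filter ℕ) (𝓝 l) := by
    intro x y
    have hc : IsCompact (Metric.closedBall (0 : ℂ) (‖y‖ * ‖x‖)) := isCompact_closedBall _ _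
    obtain ⟨l, hl, hl'⟩ := hc.ultrafilter_le_nhds
      ((hyperfilter ℕ).map (fun i => inner ℂ y ((U ^ (k i)) x))) (by
        rw [le_principal_iff]
        refine Filter.Eventually.of_forall (f := (hyperfilter ℕ : Filter ℕ)) ?_
        intro i
        rw [Metric.mem_closedBall, dist_zero_right]
        calc ‖inner ℂ y ((U ^ (k i)) x)‖ ≤ ‖y‖ * ‖(U ^ (k i)) x‖ := norm_inner_le_norm _ _
          _ = ‖y‖ * ‖x‖ := by rw [LinearIsometryEquiv.norm_map])
    exact ⟨l, by simpa using hl, hl'⟩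
  choose B hB hBlim using hb
  have hadd1 : ∀ x x' y, B (x + x') y = B x y + B x' y := by
    intro x x' y
    refine tendsto_nhds_unique (hBlim (x + x') y) ?_
    have := (hBlim x y).add (hBlim x' y)
    refine this.congr ?_
    intro i
    rw [map_add, inner_add_right]
  have hsmul1 : ∀ (a : ℂ) x y, B (a • x) y = a * B x y := by
    intro a x y
    refine tendsto_nhds_unique (hBlim (a • x) y) ?_
    have := (hBlim x y).const_mul a
    refine this.congr ?_
    intro i
    rw [map_smul, inner_smul_right]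
  have hadd2 : ∀ x y y', B x (y + y') = B x y + B x y' := by
    intro x y y'
    refine tendsto_nhds_unique (hBlim x (y + y')) ?_
    have := (hBlim x y).add (hBlim x y')
    refine this.congr ?_
    intro i
    rw [inner_add_left]
  have hsmul2 : ∀ (a : ℂ) x y, B x (a • y) = (starRingEnd ℂ) a * B x y := by
    intro a x y
    refine tendsto_nhds_unique (hBlim x (a • y)) ?_
    have := (hBlim x y).const_mul ((starRingEnd ℂ) a)
    refine this.congr ?_
    intro i
    rw [inner_smul_left]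
  let Φ : E →ₗ⋆[ℂ] E →ₗ[ℂ] ℂ := LinearMap.mk₂'ₛₗ (starRingEnd ℂ) (RingHom.id ℂ)
    (fun y x => B x y) (fun y y' x => hadd2 x y y') (fun a y x => by simpa using hsmul2 a x y)
    (fun y x x' => hadd1 x x' y) (fun a y x => by simpa using hsmul1 a x y)
  let Ψ : E →L⋆[ℂ] E →L[ℂ] ℂ := LinearMap.mkContinuous₂ Φ 1 (by
    intro y x
    simpa [Φ] using hB x y)
  let W := InnerProductSpace.continuousLinearMapOfBilin Ψ
  refine ⟨ContinuousLinearMap.adjoint W, ?_⟩
  intro x y
  rw [ContinuousLinearMap.adjoint_inner_right]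
  have : inner ℂ (W y) x = B x y := by
    rw [InnerProductSpace.continuousLinearMapOfBilin_apply]
    rfl
  rw [this]
  exact hBlim x y

/-- The main lemma: if iterated limits of the matrix coefficient
`⟪η, U ^ n ξ⟫` along the sequence `k` vanish at step `m`, they already vanish at step one. -/
theorem key (U : E ≃ₗᵢ[ℂ] E) (ξ η : E) (m : ℕ) (k : ℕ → ℤ) (h : ℕ → ℤ → ℂ)
    (h0 : ∀ n, h 0 n = inner ℂ η ((U ^ n) ξ))
    (hlim : ∀ j n, Tendsto (fun i => h j (n + k i)) atTop (𝓝 (h (j + 1) n)))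
    (hm : ∀ n, h (m + 1) n = 0) : ∀ n, h 1 n = 0 := by
  obtain ⟨V, hV⟩ := exists_limit_operator U k
  have hle : (hyperfilter ℕ : Filter ℕ) ≤ atTop := by
    rw [← Nat.cofinite_eq_atTop]; exact hyperfilter_le_cofinite
  -- V commutes with powers of U
  have hcomm : ∀ (n : ℤ) (x : E), V ((U ^ n) x) = (U ^ n) (V x) := by
    intro n x
    refine ext_inner_left ℂ ?_
    intro y
    have h1 := hV ((U ^ n) x) y
    have h2 := hV x ((U ^ n).symm y)
    have h3 : inner ℂ y ((U ^ n) (V x)) = inner ℂ ((U ^ n).symm y) (V x) := by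
      rw [← LinearIsometryEquiv.inner_map_map (U ^ n) ((U ^ n).symm y) (V x)]
      simp
    rw [h3]
    refine tendsto_nhds_unique h1 ?_
    refine h2.congr ?_
    intro i
    rw [← LinearIsometryEquiv.inner_map_map (U ^ n) ((U ^ n).symm y)]
    rw [LinearIsometryEquiv.apply_symm_apply]
    congr 1
    rw [zpow_add_app, zpow_add_app, add_comm]
  -- the adjoint is the limit of the inverse powers
  have hVadj : ∀ x y : E, Tendsto (fun i => inner ℂ y ((U ^ (-(k i))) x))
      (hyperfilter ℕ : Filter ℕ) (𝓝 (inner ℂ y (ContinuousLinearMap.adjoint V x))) := by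
    intro x y
    rw [ContinuousLinearMap.adjoint_inner_right]
    have h1 := hV y x
    have h2 := (Complex.continuous_conj.tendsto _).comp h1
    have h3 : inner ℂ (V y) x = (starRingEnd ℂ) (inner ℂ x (V y)) := (inner_conj_symm _ _).symm
    rw [h3]
    refine h2.congr ?_
    intro i
    simp only [Function.comp_apply]
    rw [inner_conj_symm]
    rw [← LinearIsometryEquiv.inner_map_map (U ^ (k i)) y]
    rw [zpow_add_app]
    simp
  have hcommadj : ∀ (n : ℤ) (x : E), ContinuousLinearMap.adjoint V ((U ^ n) x) =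
      (U ^ n) (ContinuousLinearMap.adjoint V x) := by
    intro n x
    refine ext_inner_left ℂ ?_
    intro y
    rw [ContinuousLinearMap.adjoint_inner_right]
    have h3 : inner ℂ y ((U ^ n) (ContinuousLinearMap.adjoint V x)) =
        inner ℂ ((U ^ n).symm y) (ContinuousLinearMap.adjoint V x) := by
      rw [← LinearIsometryEquiv.inner_map_map (U ^ n) ((U ^ n).symm y)]
      simp
    rw [h3, ContinuousLinearMap.adjoint_inner_right]
    rw [← LinearIsometryEquiv.inner_map_map (U ^ n) (V _) x, ← hcomm]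
    simp
  -- V is normal
  have hnormal : ∀ x : E, ContinuousLinearMap.adjoint V (V x) =
      V (ContinuousLinearMap.adjoint V x) := by
    intro x
    refine ext_inner_left ℂ ?_
    intro y
    rw [ContinuousLinearMap.adjoint_inner_right]
    refine tendsto_nhds_unique (hV x (V y)) ?_
    refine (hV (ContinuousLinearMap.adjoint V x) y).congr ?_
    intro i
    rw [← hcommadj, ContinuousLinearMap.adjoint_inner_right]
  -- the subspace M
  let M : Submodule ℂ E := 
    { carrier := {x | ∀ n : ℤ, inner ℂ η ((U ^ n) x) = 0}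
      add_mem' := by
        intro a b ha hb n
        rw [map_add, inner_add_right, ha n, hb n, add_zero]
      zero_mem' := by intro n; simp
      smul_mem' := by
        intro c a ha n
        rw [map_smul, inner_smul_right, ha n, mul_zero] }
  have hMmem : ∀ x, x ∈ M ↔ ∀ n : ℤ, inner ℂ η ((U ^ n) x) = 0 := fun x => Iff.rfl
  have hMclosed : IsClosed (M : Set E) := by
    have : (M : Set E) = ⋂ n : ℤ, {x | inner ℂ η ((U ^ n) x) = 0} := by
      ext x; simp [hMmem]
    rw [this]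
    refine isClosed_iInter ?_
    intro n
    refine isClosed_eq ?_ continuous_const
    exact continuous_const.inner (U ^ n).continuous
  have hMV : ∀ x ∈ M, V x ∈ M := by
    intro x hx n
    rw [← hcomm]
    refine tendsto_nhds_unique (hV ((U ^ n) x) η) ?_
    refine tendsto_const_nhds.congr ?_
    intro i
    rw [zpow_add_app]
    exact (hx _).symm
  have hMVadj : ∀ x ∈ M, ContinuousLinearMap.adjoint V x ∈ M := by
    intro x hx n
    rw [← hcommadj]
    refine tendsto_nhds_unique (hVadj ((U ^ n) x) η) ?_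
    refine tendsto_const_nhds.congr ?_
    intro i
    rw [zpow_add_app]
    exact (hx _).symm
  -- key claim: V (V θ) ∈ M → V θ ∈ M
  have hclaim : ∀ θ : E, V (V θ) ∈ M → V θ ∈ M := by
    intro θ hθ
    have : CompleteSpace M := hMclosed.completeSpace_coe
    obtain ⟨a, ha, b, hb, hab⟩ := M.exists_add_mem_mem_orthogonal θ
    have hVb : ∀ z ∈ Mᗮ, V z ∈ Mᗮ := by
      intro z hz
      rw [Submodule.mem_orthogonal]
      intro u hu
      rw [← ContinuousLinearMap.adjoint_inner_left]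
      exact (Submodule.mem_orthogonal _ _).1 hz _ (hMVadj u hu)
    have hVVb : V (V b) = 0 := by
      have h1 : V (V b) ∈ M := by
        have : V (V b) = V (V θ) - V (V a) := by rw [hab]; simp
        rw [this]
        exact M.sub_mem hθ (hMV _ (hMV _ ha))
      have h2 : V (V b) ∈ Mᗮ := hVb _ (hVb _ hb)
      have := (Submodule.mem_orthogonal _ _).1 h2 _ h1
      exact inner_self_eq_zero.1 this
    have hadjVb : ContinuousLinearMap.adjoint V (V b) = 0 := by
      rw [← inner_self_eq_zero (𝕜 := ℂ)]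
      rw [ContinuousLinearMap.adjoint_inner_left, ← hnormal (V b), hVVb]
      simp
    have hVb0 : V b = 0 := by
      rw [← inner_self_eq_zero (𝕜 := ℂ)]
      rw [← ContinuousLinearMap.adjoint_inner_right, hadjVb]
      simp
    rw [hab, map_add, hVb0, add_zero]
    exact hMV _ ha
  -- formula for h
  have hform : ∀ j n, h j n = inner ℂ η ((U ^ n) ((V ^ j) ξ)) := by
    intro j
    induction j with
    | zero => intro n; simpa using h0 n
    | succ j ih =>
      intro n
      have h1 := (hlim j n).mono_left hle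
      refine tendsto_nhds_unique h1 ?_
      have h2 := hV ((U ^ n) ((V ^ j) ξ)) η
      rw [hcomm] at h2
      have h3 : V ((V ^ j) ξ) = (V ^ (j + 1)) ξ := by
        rw [pow_succ']; rfl
      rw [h3] at h2
      refine h2.congr ?_
      intro i
      rw [ih]
      rw [zpow_add_app, add_comm]
  have hdesc : ∀ j, (V ^ (j + 1)) ξ ∈ M → V ξ ∈ M := by
    intro j
    induction j with
    | zero => intro hj; simpa using hj
    | succ j ih =>
      intro hj
      apply ih
      have h3 : V ((V ^ (j + 1)) ξ) = (V ^ (j + 1 + 1)) ξ := by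
        rw [pow_succ' V (j + 1)]; rfl
      have h4 : V ((V ^ j) ξ) = (V ^ (j + 1)) ξ := by
        rw [pow_succ' V j]; rfl
      rw [← h3, ← h4] at hj
      rw [← h4]
      exact hclaim _ hj
  have hfin : V ξ ∈ M := by
    refine hdesc m ?_
    intro n
    rw [← hform]
    exact hm n
  intro n
  rw [hform 1 n]
  simpa using hfin n

end Operator

section Func

/-- the multiplier `c_j = 2^{-1/(m+1)}`, `m` the first component of `unpair j` -/
noncomputable def cc (j : ℕ) : ℝ := (1 / 2 : ℝ) ^ ((1 : ℝ) / ((Nat.unpair j).1 + 1))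

noncomputable def dd (m : ℕ) : ℝ := (1 / 2 : ℝ) ^ ((1 : ℝ) / (m + 1))

theorem cc_pair (m i : ℕ) : cc (Nat.pair m i) = dd m := by
  unfold cc dd
  rw [Nat.unpair_pair]

theorem cc_pos (j : ℕ) : 0 < cc j := by unfold cc; positivity

theorem cc_le_one (j : ℕ) : cc j ≤ 1 := by
  unfold cc
  exact Real.rpow_le_one (by norm_num) (by norm_num) (by positivity)

theorem dd_pos (m : ℕ) : 0 < dd m := by unfold dd; positivity

theorem dd_lt_one (m : ℕ) : dd m < 1 := by
  unfold dd
  exact Real.rpow_lt_one (by norm_num) (by norm_num) (by positivity)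

theorem dd_pow (m : ℕ) : dd m ^ (m + 1) = 1 / 2 := by
  unfold dd
  rw [← Real.rpow_natCast, ← Real.rpow_mul (by norm_num)]
  have : (1 : ℝ) / (m + 1) * ((m + 1 : ℕ) : ℝ) = 1 := by
    push_cast
    field_simp
  rw [this, Real.rpow_one]

theorem dd_tendsto : Tendsto dd atTop (𝓝 1) := by
  unfold dd
  have h1 : Tendsto (fun m : ℕ => (1 : ℝ) / (m + 1)) atTop (𝓝 0) :=
    tendsto_one_div_add_atTop_nhds_zero_nat
  have h2 := (Real.continuousAt_const_rpow (a := (1 / 2 : ℝ)) (b := 0) (by norm_num)).tendsto.comp h1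
  rw [Real.rpow_zero] at h2
  exact h2

noncomputable def aa (j : ℕ) (n : ℤ) : ℝ :=
  (1 + cc j) / 2 + (1 - cc j) / 2 * Real.cos (Real.pi * n / 2 ^ (j ^ 2))

theorem aa_le_one (j : ℕ) (n : ℤ) : aa j n ≤ 1 := by
  unfold aa
  have h1 := Real.cos_le_one (Real.pi * n / 2 ^ (j ^ 2))
  have h2 := cc_le_one j
  nlinarith

theorem aa_nonneg (j : ℕ) (n : ℤ) : 0 ≤ aa j n := by
  unfold aa
  have h1 := Real.neg_one_le_cos (Real.pi * n / 2 ^ (j ^ 2))
  have h2 := cc_le_one j
  have h3 := cc_pos j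
  nlinarith

theorem aa_ge (j : ℕ) (n : ℤ) : 1 - 3 * ((n : ℝ) / 2 ^ (j ^ 2)) ^ 2 ≤ aa j n := by
  unfold aa
  have h1 := Real.one_sub_sq_div_two_le_cos (x := Real.pi * n / 2 ^ (j ^ 2))
  have h2 := cc_le_one j
  have h3 := cc_pos j
  have h4 : (Real.pi * n / 2 ^ (j ^ 2)) ^ 2 = Real.pi ^ 2 * ((n : ℝ) / 2 ^ (j ^ 2)) ^ 2 := by ring
  have h5 : Real.pi ^ 2 ≤ 12 := by
    have := Real.pi_lt_d2
    have := Real.pi_pos
    nlinarith
  have h6 : 0 ≤ ((n : ℝ) / 2 ^ (j ^ 2)) ^ 2 := by positivity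
  have h7 : (Real.pi * n / 2 ^ (j ^ 2)) ^ 2 ≤ 12 * ((n : ℝ) / 2 ^ (j ^ 2)) ^ 2 := by
    rw [h4]; exact mul_le_mul_of_nonneg_right h5 h6
  have h8 : 1 - 6 * ((n : ℝ) / 2 ^ (j ^ 2)) ^ 2 ≤ Real.cos (Real.pi * n / 2 ^ (j ^ 2)) := by
    linarith
  have h9 : (1 - cc j) / 2 * (1 - 6 * ((n : ℝ) / 2 ^ (j ^ 2)) ^ 2) ≤
      (1 - cc j) / 2 * Real.cos (Real.pi * n / 2 ^ (j ^ 2)) :=
    mul_le_mul_of_nonneg_left h8 (by linarith)
  nlinarith

noncomputable def pp (N : ℕ) (n : ℤ) : ℝ := ∏ j ∈ Finset.range N, aa j n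

theorem pp_succ (N : ℕ) (n : ℤ) : pp (N + 1) n = pp N n * aa N n := by
  unfold pp; rw [Finset.prod_range_succ]

theorem pp_nonneg (N : ℕ) (n : ℤ) : 0 ≤ pp N n :=
  Finset.prod_nonneg fun j _ => aa_nonneg j n

theorem pp_le_one (N : ℕ) (n : ℤ) : pp N n ≤ 1 :=
  Finset.prod_le_one (fun j _ => aa_nonneg j n) (fun j _ => aa_le_one j n)

theorem pp_antitone (n : ℤ) : Antitone fun N => pp N n := by
  refine antitone_nat_of_succ_le ?_
  intro N
  rw [pp_succ]
  exact mul_le_of_le_one_right (pp_nonneg N n) (aa_le_one N n)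

noncomputable def ff (n : ℤ) : ℝ := ⨅ N, pp N n

theorem ff_tendsto (n : ℤ) : Tendsto (fun N => pp N n) atTop (𝓝 (ff n)) :=
  tendsto_atTop_ciInf (pp_antitone n) ⟨0, by rintro _ ⟨N, rfl⟩; exact pp_nonneg N n⟩

theorem ff_nonneg (n : ℤ) : 0 ≤ ff n := ge_of_tendsto' (ff_tendsto n) fun N => pp_nonneg N n

theorem ff_le_pp (K : ℕ) (n : ℤ) : ff n ≤ pp K n :=
  ciInf_le ⟨0, by rintro _ ⟨N, rfl⟩; exact pp_nonneg N n⟩ K

theorem ff_le_one (n : ℤ) : ff n ≤ 1 := (ff_le_pp 0 n).trans (pp_le_one 0 n)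

theorem pp_tail (n : ℤ) (K : ℕ) : ∀ N, K ≤ N →
    pp K n - 4 * (n : ℝ) ^ 2 * ((1 / 2 ^ (K ^ 2)) ^ 2 - (1 / 2 ^ (N ^ 2)) ^ 2) ≤ pp N n := by
  intro N hN
  induction N, hN using Nat.le_induction with
  | base => simp
  | succ N hN ih =>
    rw [pp_succ]
    have h1 := aa_ge N n
    have h2 := pp_le_one N n
    have h3 := pp_nonneg N n
    have h4 : pp N n * aa N n ≥ pp N n - 3 * ((n : ℝ) / 2 ^ (N ^ 2)) ^ 2 := by
      have : 0 ≤ 3 * ((n : ℝ) / 2 ^ (N ^ 2)) ^ 2 := by positivity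
      nlinarith
    have h5 : ((n : ℝ) / 2 ^ (N ^ 2)) ^ 2 = (n : ℝ) ^ 2 * (1 / 2 ^ (N ^ 2)) ^ 2 := by ring
    have h6 : ((1 : ℝ) / 2 ^ ((N + 1) ^ 2)) ^ 2 ≤ (1 / 2 ^ (N ^ 2)) ^ 2 / 4 := by
      have : ((1 : ℝ) / 2 ^ ((N + 1) ^ 2)) ≤ (1 / 2 ^ (N ^ 2)) / 2 := by
        rw [div_div]
        apply one_div_le_one_div_of_le (by positivity)
        rw [← pow_succ]
        apply pow_le_pow_right₀ (by norm_num)
        nlinarith
      calc ((1 : ℝ) / 2 ^ ((N + 1) ^ 2)) ^ 2 ≤ ((1 / 2 ^ (N ^ 2)) / 2) ^ 2 :=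
            pow_le_pow_left₀ (by positivity) this 2
        _ = (1 / 2 ^ (N ^ 2)) ^ 2 / 4 := by ring
    have h7 : 0 ≤ (n : ℝ) ^ 2 := by positivity
    nlinarith

theorem ff_tail (n : ℤ) (K : ℕ) : pp K n - 4 * ((n : ℝ) / 2 ^ (K ^ 2)) ^ 2 ≤ ff n := by
  refine ge_of_tendsto (ff_tendsto n) ?_
  filter_upwards [eventually_ge_atTop K] with N hN
  have h1 := pp_tail n K N hN
  have h2 : 0 ≤ 4 * (n : ℝ) ^ 2 * (1 / 2 ^ (N ^ 2)) ^ 2 := by positivity
  have h3 : ((n : ℝ) / 2 ^ (K ^ 2)) ^ 2 = (n : ℝ) ^ 2 * (1 / 2 ^ (K ^ 2)) ^ 2 := by ring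
  rw [h3]
  nlinarith

theorem ff_zero : ff 0 = 1 := by
  apply le_antisymm (ff_le_one 0)
  have := ff_tail 0 0
  simpa [pp] using this

theorem aa_shift_lt {j k : ℕ} (hjk : j < k) (n : ℤ) : aa j (n + 2 ^ (k ^ 2)) = aa j n := by
  unfold aa
  congr 2
  have h1 : j ^ 2 + 1 ≤ k ^ 2 := by nlinarith
  obtain ⟨l, hl⟩ := Nat.exists_eq_add_of_le h1
  have h2 : Real.pi * ((n + 2 ^ (k ^ 2) : ℤ) : ℝ) / 2 ^ (j ^ 2) =
      Real.pi * n / 2 ^ (j ^ 2) + ((2 ^ l : ℕ) : ℝ) * (2 * Real.pi) := by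
    rw [hl]
    push_cast
    rw [pow_add, pow_add]
    field_simp
  rw [h2, Real.cos_add_nat_mul_two_pi]

theorem pp_shift (k : ℕ) (n : ℤ) : pp k (n + 2 ^ (k ^ 2)) = pp k n := by
  unfold pp
  refine Finset.prod_congr rfl ?_
  intro j hj
  exact aa_shift_lt (Finset.mem_range.1 hj) n

theorem aa_shift_self (k : ℕ) (n : ℤ) : aa k (n + 2 ^ (k ^ 2)) =
    cc k + (1 - aa k n) := by
  unfold aa
  have h2 : Real.pi * ((n + 2 ^ (k ^ 2) : ℤ) : ℝ) / 2 ^ (k ^ 2) =
      Real.pi * n / 2 ^ (k ^ 2) + Real.pi := by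
    push_cast
    field_simp
  rw [h2, Real.cos_add_pi]
  ring

theorem tendsto_aux : Tendsto (fun k : ℕ => (1 : ℝ) / 2 ^ (k ^ 2)) atTop (𝓝 0) := by
  have h1 : Tendsto (fun k : ℕ => ((1 : ℝ) / 2) ^ k) atTop (𝓝 0) :=
    tendsto_pow_atTop_nhds_zero_of_lt_one (by norm_num) (by norm_num)
  have h2 : Tendsto (fun k : ℕ => k ^ 2) atTop atTop :=
    tendsto_pow_atTop (by norm_num)
  refine (h1.comp h2).congr ?_
  intro k
  simp

theorem tendsto_aux2 (n : ℤ) :
    Tendsto (fun k : ℕ => (((n + 2 ^ (k ^ 2) : ℤ) : ℝ)) / 2 ^ ((k + 1) ^ 2)) atTop (𝓝 0) := by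
  have h1 := (tendsto_aux.comp (tendsto_add_atTop_nat 1)).const_mul (n : ℝ)
  have h2 : Tendsto (fun k : ℕ => ((1 : ℝ) / 2) ^ (2 * k + 1)) atTop (𝓝 0) := by
    refine (tendsto_pow_atTop_nhds_zero_of_lt_one (by norm_num) (by norm_num)).comp ?_
    refine tendsto_atTop_mono (f := fun k : ℕ => k) ?_ tendsto_id
    intro k; omega
  have h3 := h1.add h2
  simp only [mul_zero, add_zero] at h3
  refine h3.congr ?_
  intro k
  have h4 : (k + 1) ^ 2 = k ^ 2 + (2 * k + 1) := by ring
  simp only [Function.comp_apply]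
  rw [h4]
  push_cast
  rw [pow_add, one_div_pow (2 : ℝ) (2 * k + 1)]
  field_simp

theorem ff_lim (n : ℤ) : Tendsto (fun k : ℕ => ff (n + 2 ^ (k ^ 2)) - cc k * ff n) atTop (𝓝 0) := by
  -- ff (n + N_k) - pp (k+1) (n + N_k) → 0
  have h1 : Tendsto (fun k : ℕ => ff (n + 2 ^ (k ^ 2)) - pp (k + 1) (n + 2 ^ (k ^ 2))) atTop (𝓝 0) := by
    have h2 := ((tendsto_aux2 n).pow 2).const_mul (-4 : ℝ)
    simp only [ne_eq, OfNat.ofNat_ne_zero, not_false_eq_true, zero_pow, mul_zero] at h2
    refine tendsto_of_tendsto_of_tendsto_of_le_of_le h2 tendsto_const_nhds ?_ ?_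
    · intro k
      have := ff_tail (n + 2 ^ (k ^ 2)) (k + 1)
      simp only
      linarith
    · intro k
      have := ff_le_pp (k + 1) (n + 2 ^ (k ^ 2))
      simp only
      linarith
  have h2 : Tendsto (fun k : ℕ => 1 - aa k n) atTop (𝓝 0) := by
    have h3 := ((tendsto_aux.const_mul (n : ℝ)).pow 2).const_mul (3 : ℝ)
    simp only [mul_zero, ne_eq, OfNat.ofNat_ne_zero, not_false_eq_true, zero_pow] at h3
    refine tendsto_of_tendsto_of_tendsto_of_le_of_le tendsto_const_nhds h3 ?_ ?_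
    · intro k
      have := aa_le_one k n
      simp only
      linarith
    · intro k
      have := aa_ge k n
      have h4 : (n : ℝ) * (1 / 2 ^ (k ^ 2)) = n / 2 ^ (k ^ 2) := by ring
      simp only
      rw [h4]
      linarith
  have h3 : Tendsto (fun k : ℕ => pp k n * (1 - aa k n)) atTop (𝓝 0) := by
    have := (ff_tendsto n).mul h2
    simpa using this
  have h4 : Tendsto (fun k : ℕ => cc k * (pp k n - ff n)) atTop (𝓝 0) := by
    have h5 : Tendsto (fun k : ℕ => pp k n - ff n) atTop (𝓝 0) := by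
      have := (ff_tendsto n).sub_const (ff n)
      simpa using this
    refine squeeze_zero_norm ?_ (tendsto_norm_zero.comp h5)
    intro k
    rw [norm_mul]
    simp only [Function.comp_apply]
    have : ‖cc k‖ ≤ 1 := by
      rw [Real.norm_of_nonneg (cc_pos k).le]; exact cc_le_one k
    exact mul_le_of_le_one_left (norm_nonneg _) this
  have h5 := (h1.add h3).add h4
  simp only [add_zero] at h5
  refine h5.congr ?_
  intro k
  rw [pp_succ, pp_shift, aa_shift_self]
  ring

/-- the sequence of times -/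
def kk (m i : ℕ) : ℤ := 2 ^ ((Nat.pair m i) ^ 2)

theorem ff_kk (m : ℕ) (n : ℤ) : Tendsto (fun i : ℕ => ff (n + kk m i)) atTop (𝓝 (dd m * ff n)) := by
  have h1 : Tendsto (fun i : ℕ => Nat.pair m i) atTop atTop :=
    tendsto_atTop_mono (fun i => Nat.right_le_pair m i) tendsto_id
  have h2 := ((ff_lim n).comp h1).add_const (dd m * ff n)
  simp only [zero_add] at h2
  refine h2.congr ?_
  intro i
  simp only [Function.comp_apply, cc_pair, kk]
  ring

end Func



instance factTwoPi : Fact (0 < 2 * Real.pi) := ⟨Real.two_pi_pos⟩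

theorem fourier_norm_apply (n : ℤ) (x : TT) : ‖fourier n x‖ = 1 := by
  rw [fourier_apply]; exact Circle.norm_coe _

theorem integrable_fourier (μ : Measure TT) [IsFiniteMeasure μ] (n : ℤ) :
    Integrable (fun t : TT => (fourier n t : ℂ)) μ := by
  refine Integrable.of_bound (C := 1) ?_ ?_
  · exact (fourier n).continuous.aestronglyMeasurable
  · exact Filter.Eventually.of_forall fun x => (fourier_norm_apply n x).le

theorem fourier_add_arg (n : ℤ) (x y : TT) :
    (fourier n (x + y) : ℂ) = fourier n x * fourier n y := by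
  rw [fourier_apply, fourier_apply, fourier_apply, smul_add, AddCircle.toCircle_add]
  rfl

theorem hatm_conv (μ ν : Measure TT) [IsFiniteMeasure μ] [IsFiniteMeasure ν] (n : ℤ) :
    hatm (μ ∗ ν) n = hatm μ n * hatm ν n := by
  unfold hatm
  rw [integral_conv (integrable_fourier _ n)]
  simp_rw [fourier_add_arg]
  simp_rw [integral_const_mul]
  rw [integral_mul_const]

theorem hatm_add (μ ν : Measure TT) [IsFiniteMeasure μ] [IsFiniteMeasure ν] (n : ℤ) :
    hatm (μ + ν) n = hatm μ n + hatm ν n := by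
  unfold hatm
  rw [integral_add_measure (integrable_fourier _ n) (integrable_fourier _ n)]

theorem hatm_smul (c : NNReal) (μ : Measure TT) (n : ℤ) :
    hatm (c • μ) n = (c : ℂ) * hatm μ n := by
  unfold hatm
  rw [integral_smul_nnreal_measure]
  rfl

theorem hatm_zero (n : ℤ) : hatm 0 n = 0 := by
  unfold hatm; simp

theorem hatm_dirac (x : TT) (n : ℤ) : hatm (Measure.dirac x) n = fourier n x := by
  unfold hatm; rw [integral_dirac]

/-- transform of a probability measure -/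
def IsPD (f : ℤ → ℂ) : Prop := ∃ μ : Measure TT, IsProbabilityMeasure μ ∧ ∀ n, f n = hatm μ n

theorem IsPD.mul {f g : ℤ → ℂ} (hf : IsPD f) (hg : IsPD g) : IsPD (fun n => f n * g n) := by
  obtain ⟨μ, hμ, hf⟩ := hf
  obtain ⟨ν, hν, hg⟩ := hg
  refine ⟨μ ∗ ν, inferInstance, ?_⟩
  intro n
  simp only [hf n, hg n, hatm_conv]

theorem IsPD.one : IsPD (fun _ => 1) := by
  refine ⟨Measure.dirac 0, inferInstance, ?_⟩
  intro n
  rw [hatm_dirac, fourier_eval_zero]

theorem IsPD.lim {F : ℕ → ℤ → ℂ} {f : ℤ → ℂ} (hF : ∀ N, IsPD (F N))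
    (h : ∀ n, Tendsto (fun N => F N n) atTop (𝓝 (f n))) : IsPD f := by
  choose μ hμ hF using hF
  let P : ℕ → ProbabilityMeasure TT := fun N => ⟨μ N, hμ N⟩
  obtain ⟨Q, -, hQ⟩ := isCompact_univ.ultrafilter_le_nhds
    ((hyperfilter ℕ).map P) (by simp)
  refine ⟨Q, inferInstance, ?_⟩
  intro n
  have hle : (hyperfilter ℕ : Filter ℕ) ≤ atTop := by
    rw [← Nat.cofinite_eq_atTop]; exact hyperfilter_le_cofinite
  have h1 := (h n).mono_left hle
  have h2 : Tendsto P (hyperfilter ℕ : Filter ℕ) (𝓝 Q) := hQ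
  have h3 := (ProbabilityMeasure.tendsto_iff_forall_integral_rclike_tendsto ℂ).1 h2
    (BoundedContinuousFunction.mkOfCompact (fourier n))
  refine tendsto_nhds_unique h1 ?_
  refine h3.congr ?_
  intro i
  rw [hF]
  rfl

theorem IsPD.cos (c w : ℝ) (hc0 : 0 ≤ c) (hc1 : c ≤ 1) :
    IsPD (fun n => (((1 + c) / 2 + (1 - c) / 2 * Real.cos (n * w) : ℝ) : ℂ)) := by
  have h1 : 0 ≤ (1 + c) / 2 := by linarith
  have h2 : 0 ≤ (1 - c) / 4 := by linarith
  obtain ⟨α, hα⟩ : ∃ α : NNReal, (α : ℝ) = (1 + c) / 2 := ⟨⟨(1 + c) / 2, h1⟩, rfl⟩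
  obtain ⟨β, hβ⟩ : ∃ β : NNReal, (β : ℝ) = (1 - c) / 4 := ⟨⟨(1 - c) / 4, h2⟩, rfl⟩
  let μ : Measure TT := α • Measure.dirac 0 +
    (β • Measure.dirac ((w : ℝ) : TT) + β • Measure.dirac ((-w : ℝ) : TT))
  refine ⟨μ, ⟨?_⟩, ?_⟩
  · simp only [μ, Measure.coe_add, Pi.add_apply, Measure.smul_apply, measure_univ]
    simp only [ENNReal.smul_def, smul_eq_mul, mul_one]
    rw [← ENNReal.coe_add, ← ENNReal.coe_add, ENNReal.coe_eq_one]
    ext
    push_cast
    rw [hα, hβ]
    ring
  · intro n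
    simp only [μ]
    rw [hatm_add, hatm_add, hatm_smul, hatm_smul, hatm_smul, hatm_dirac, hatm_dirac, hatm_dirac,
      fourier_eval_zero, fourier_coe_apply, fourier_coe_apply]
    push_cast
    rw [Complex.cos]
    have h3 : (2 * (Real.pi : ℂ) * Complex.I * n * w / (2 * Real.pi)) = n * w * Complex.I := by
      have : (Real.pi : ℂ) ≠ 0 := by exact_mod_cast Real.pi_ne_zero
      field_simp
    have h4 : (2 * (Real.pi : ℂ) * Complex.I * n * (-w) / (2 * Real.pi)) = -(n * w) * Complex.I := by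
      have : (Real.pi : ℂ) ≠ 0 := by exact_mod_cast Real.pi_ne_zero
      field_simp
    rw [h3, h4]
    have h5 : ((α : ℝ) : ℂ) = (1 + c) / 2 := by
      rw [hα]; push_cast; rfl
    have h6 : ((β : ℝ) : ℂ) = (1 - c) / 4 := by
      rw [hβ]; push_cast; rfl
    rw [h5, h6]
    ring

section BAlgebra


theorem InB.of_hatm (μ : Measure TT) [IsFiniteMeasure μ] : InB (hatm μ) :=
  ⟨μ, 0, 0, 0, inferInstance, inferInstance, inferInstance, inferInstance, by
    intro n; simp [hatm_zero]⟩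

theorem IsPD.inB {f : ℤ → ℂ} (hf : IsPD f) : InB f := by
  obtain ⟨μ, hμ, hf⟩ := hf
  have := InB.of_hatm μ
  have h2 : f = hatm μ := funext hf
  rwa [h2]

theorem InB.zero : InB (fun _ => 0) :=
  ⟨0, 0, 0, 0, inferInstance, inferInstance, inferInstance, inferInstance, by
    intro n; simp [hatm_zero]⟩

theorem InB.add {f g : ℤ → ℂ} (hf : InB f) (hg : InB g) : InB (fun n => f n + g n) := by
  obtain ⟨a, b, c, d, _, _, _, _, hf⟩ := hf
  obtain ⟨a', b', c', d', _, _, _, _, hg⟩ := hg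
  refine ⟨a + a', b + b', c + c', d + d', inferInstance, inferInstance, inferInstance,
    inferInstance, ?_⟩
  intro n
  simp only [hf n, hg n, hatm_add]
  ring

theorem InB.mul_I {f : ℤ → ℂ} (hf : InB f) : InB (fun n => Complex.I * f n) := by
  obtain ⟨a, b, c, d, _, _, _, _, hf⟩ := hf
  refine ⟨d, c, a, b, inferInstance, inferInstance, inferInstance, inferInstance, ?_⟩
  intro n
  simp only [hf n]
  linear_combination (hatm c n - hatm d n) * Complex.I_mul_I

theorem InB.neg {f : ℤ → ℂ} (hf : InB f) : InB (fun n => - f n) := by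
  obtain ⟨a, b, c, d, _, _, _, _, hf⟩ := hf
  refine ⟨b, a, d, c, inferInstance, inferInstance, inferInstance, inferInstance, ?_⟩
  intro n
  simp only [hf n]
  ring

theorem InB.nnsmul {f : ℤ → ℂ} (hf : InB f) (r : NNReal) :
    InB (fun n => ((r : ℝ) : ℂ) * f n) := by
  obtain ⟨a, b, c, d, _, _, _, _, hf⟩ := hf
  refine ⟨r • a, r • b, r • c, r • d, inferInstance, inferInstance, inferInstance,
    inferInstance, ?_⟩
  intro n
  simp only [hf n, hatm_smul]
  ring

theorem InB.rsmul {f : ℤ → ℂ} (hf : InB f) (r : ℝ) : InB (fun n => (r : ℂ) * f n) := by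
  rcases le_total 0 r with h | h
  · obtain ⟨s, hs⟩ : ∃ s : NNReal, (s : ℝ) = r := ⟨⟨r, h⟩, rfl⟩
    have := hf.nnsmul s
    rwa [hs] at this
  · obtain ⟨s, hs⟩ : ∃ s : NNReal, (s : ℝ) = -r := ⟨⟨-r, by linarith⟩, rfl⟩
    have := (hf.nnsmul s).neg
    rw [hs] at this
    simpa using this

theorem InB.smul {f : ℤ → ℂ} (hf : InB f) (c : ℂ) : InB (fun n => c * f n) := by
  have := (hf.rsmul c.re).add (hf.rsmul c.im).mul_I
  refine (iff_of_eq (congrArg InB ?_)).1 this
  funext n
  conv_rhs => rw [← Complex.re_add_im c]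
  ring

theorem InB.mul {f g : ℤ → ℂ} (hf : InB f) (hg : InB g) : InB (fun n => f n * g n) := by
  obtain ⟨a, b, c, d, _, _, _, _, hf⟩ := hf
  obtain ⟨a', b', c', d', _, _, _, _, hg⟩ := hg
  refine ⟨a ∗ a' + b ∗ b' + c ∗ d' + d ∗ c', a ∗ b' + b ∗ a' + c ∗ c' + d ∗ d',
    a ∗ c' + b ∗ d' + c ∗ a' + d ∗ b', a ∗ d' + b ∗ c' + c ∗ b' + d ∗ a',
    inferInstance, inferInstance, inferInstance, inferInstance, ?_⟩
  intro n
  simp only [hf n, hg n, hatm_add, hatm_conv]
  linear_combination ((hatm c n - hatm d n) * (hatm c' n - hatm d' n)) * Complex.I_mul_I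

theorem hatm_neg (μ : Measure TT) (n : ℤ) :
    hatm (μ.map (fun t => -t)) n = (starRingEnd ℂ) (hatm μ n) := by
  unfold hatm
  rw [integral_map (measurable_neg.aemeasurable) (fourier n).continuous.aestronglyMeasurable]
  rw [← integral_conj]
  refine integral_congr_ae (Filter.Eventually.of_forall ?_)
  intro t
  simp only
  rw [fourier_apply, fourier_apply, smul_neg, AddCircle.toCircle_neg, Circle.coe_inv_eq_conj]

theorem InB.conj {f : ℤ → ℂ} (hf : InB f) : InB (fun n => (starRingEnd ℂ) (f n)) := by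
  obtain ⟨a, b, c, d, _, _, _, _, hf⟩ := hf
  refine ⟨a.map (fun t => -t), b.map (fun t => -t), d.map (fun t => -t), c.map (fun t => -t),
    inferInstance, inferInstance, inferInstance, inferInstance, ?_⟩
  intro n
  simp only [hf n, hatm_neg, map_add, map_sub, map_mul, Complex.conj_I]
  ring

/-- multiplying a finite measure by a bounded nonnegative continuous density -/
theorem inB_density (μ : Measure TT) [IsFiniteMeasure μ] (g : TT → ℝ) (hg : Continuous g)
    (hg0 : ∀ t, 0 ≤ g t) (hg2 : ∀ t, g t ≤ 2) :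
    InB (fun n => ∫ t, fourier n t * (g t : ℂ) ∂μ) := by
  let ν : Measure TT := μ.withDensity (fun t => ENNReal.ofReal (g t))
  have hν : IsFiniteMeasure ν := by
    refine isFiniteMeasure_withDensity_ofReal ?_
    refine HasFiniteIntegral.of_bounded (C := 2) (Filter.Eventually.of_forall ?_)
    intro t
    rw [Real.norm_of_nonneg (hg0 t)]
    exact hg2 t
  have := InB.of_hatm ν
  refine (iff_of_eq (congrArg InB ?_)).1 this
  funext n
  unfold hatm
  have h1 : ν = μ.withDensity (fun t => ((Real.toNNReal (g t) : NNReal) : ENNReal)) := rfl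
  rw [h1, integral_withDensity_eq_integral_smul (by fun_prop)]
  refine integral_congr_ae (Filter.Eventually.of_forall ?_)
  intro t
  simp only
  rw [NNReal.smul_def, Real.coe_toNNReal _ (hg0 t), Complex.real_smul]
  ring

theorem inB_hatm_shift (μ : Measure TT) [IsFiniteMeasure μ] (k : ℤ) :
    InB (fun n => hatm μ (n + k)) := by
  have hbd : ∀ t : TT, ‖(fourier k t : ℂ)‖ = 1 := fun t => fourier_norm_apply k t
  have hre : ∀ t : TT, |(fourier k t : ℂ).re| ≤ 1 := fun t =>
    (Complex.abs_re_le_norm _).trans (hbd t).le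
  have him : ∀ t : TT, |(fourier k t : ℂ).im| ≤ 1 := fun t =>
    (Complex.abs_im_le_norm _).trans (hbd t).le
  have hc : Continuous (fun t : TT => (fourier k t : ℂ)) := (fourier k).continuous
  have h1 := inB_density μ (fun t => 1 + (fourier k t : ℂ).re)
    (continuous_const.add (Complex.continuous_re.comp hc))
    (fun t => by have := abs_le.1 (hre t); linarith)
    (fun t => by have := abs_le.1 (hre t); linarith)
  have h2 := inB_density μ (fun t => 1 + (fourier k t : ℂ).im)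
    (continuous_const.add (Complex.continuous_im.comp hc))
    (fun t => by have := abs_le.1 (him t); linarith)
    (fun t => by have := abs_le.1 (him t); linarith)
  have h3 := (h1.add h2.mul_I).add ((InB.of_hatm μ).smul (-(1 + Complex.I)))
  refine (iff_of_eq (congrArg InB ?_)).1 h3
  funext n
  unfold hatm
  have hi : ∀ (g : TT → ℂ), Continuous g → Integrable (fun t => fourier n t * g t) μ := by
    intro g hg
    have : Continuous (fun t : TT => (fourier n t : ℂ) * g t) := (fourier n).continuous.mul hg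
    have hb : ∃ C, ∀ t, ‖(fourier n t : ℂ) * g t‖ ≤ C := by
      obtain ⟨C, hC⟩ := (isCompact_univ (X := TT)).exists_bound_of_continuousOn this.continuousOn
      exact ⟨C, fun t => hC t (Set.mem_univ t)⟩
    obtain ⟨C, hC⟩ := hb
    exact Integrable.of_bound this.aestronglyMeasurable C (Filter.Eventually.of_forall hC)
  have hi1 := hi (fun t => (((1 + (fourier k t : ℂ).re : ℝ)) : ℂ))
    (Complex.continuous_ofReal.comp (continuous_const.add (Complex.continuous_re.comp hc)))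
  have hi2 := hi (fun t => (((1 + (fourier k t : ℂ).im : ℝ)) : ℂ))
    (Complex.continuous_ofReal.comp (continuous_const.add (Complex.continuous_im.comp hc)))
  have hi3 := integrable_fourier μ n
  have hi12 : Integrable (fun t => fourier n t * (((1 + (fourier k t : ℂ).re : ℝ)) : ℂ) +
      Complex.I * (fourier n t * (((1 + (fourier k t : ℂ).im : ℝ)) : ℂ))) μ :=
    hi1.add (hi2.const_mul _)
  have e : ∀ t : TT, (fourier (n + k) t : ℂ) =
      (fourier n t * (((1 + (fourier k t : ℂ).re : ℝ)) : ℂ) +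
      Complex.I * (fourier n t * (((1 + (fourier k t : ℂ).im : ℝ)) : ℂ))) +
      (-(1 + Complex.I)) * fourier n t := by
    intro t
    rw [fourier_add]
    have h4 : (fourier k t : ℂ) = (((fourier k t : ℂ).re : ℝ) : ℂ) +
      (((fourier k t : ℂ).im : ℝ) : ℂ) * Complex.I := (Complex.re_add_im _).symm
    push_cast
    linear_combination (fourier n t : ℂ) * h4
  have e2 : ∫ t, (fourier (n + k) t : ℂ) ∂μ = ∫ t, ((fourier n t * (((1 + (fourier k t : ℂ).re : ℝ)) : ℂ) +
      Complex.I * (fourier n t * (((1 + (fourier k t : ℂ).im : ℝ)) : ℂ))) +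
      (-(1 + Complex.I)) * fourier n t) ∂μ :=
    integral_congr_ae (Filter.Eventually.of_forall e)
  rw [e2, integral_add hi12 (hi3.const_mul _), integral_add hi1 (hi2.const_mul _),
    integral_const_mul, integral_const_mul]

theorem InB.shift {f : ℤ → ℂ} (hf : InB f) (k : ℤ) : InB (fun n => f (n + k)) := by
  obtain ⟨a, b, c, d, _, _, _, _, hf⟩ := hf
  have h := ((inB_hatm_shift a k).add (inB_hatm_shift b k).neg).add
    ((inB_hatm_shift c k).add (inB_hatm_shift d k).neg).mul_I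
  refine (iff_of_eq (congrArg InB ?_)).1 h
  funext n
  rw [hf]
  ring

theorem norm_hatm_le (μ : Measure TT) [IsFiniteMeasure μ] (n : ℤ) :
    ‖hatm μ n‖ ≤ μ.real Set.univ := by
  unfold hatm
  have := norm_integral_le_of_norm_le_const (μ := μ) (f := fun t : TT => (fourier n t : ℂ)) (C := 1)
    (Filter.Eventually.of_forall fun t => (fourier_norm_apply n t).le)
  simpa using this

theorem InB.bounded {f : ℤ → ℂ} (hf : InB f) : ∃ M, ∀ n, ‖f n‖ ≤ M := by
  obtain ⟨a, b, c, d, _, _, _, _, hf⟩ := hf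
  refine ⟨(a.real Set.univ + b.real Set.univ) + (c.real Set.univ + d.real Set.univ), ?_⟩
  intro n
  rw [hf]
  refine (norm_add_le _ _).trans (add_le_add ?_ ?_)
  · exact (norm_sub_le _ _).trans (add_le_add (norm_hatm_le a n) (norm_hatm_le b n))
  · rw [norm_mul, Complex.norm_I, one_mul]
    exact (norm_sub_le _ _).trans (add_le_add (norm_hatm_le c n) (norm_hatm_le d n))


theorem InB.inH {f : ℤ → ℂ} (hf : InB f) : InH f := fun ε hε => ⟨f, hf, fun n => by simp [hε.le]⟩

theorem InH.bounded {f : ℤ → ℂ} (hf : InH f) : ∃ M, ∀ n, ‖f n‖ ≤ M := by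
  obtain ⟨g, hg, hfg⟩ := hf 1 one_pos
  obtain ⟨M, hM⟩ := hg.bounded
  refine ⟨1 + M, fun n => ?_⟩
  calc ‖f n‖ = ‖(f n - g n) + g n‖ := by rw [sub_add_cancel]
    _ ≤ ‖f n - g n‖ + ‖g n‖ := norm_add_le _ _
    _ ≤ 1 + M := add_le_add (hfg n) (hM n)

theorem InH.closed {f : ℤ → ℂ} (hf : ∀ ε > (0 : ℝ), ∃ g : ℤ → ℂ, InH g ∧ ∀ n, ‖f n - g n‖ ≤ ε) :
    InH f := by
  intro ε hε
  obtain ⟨g, hg, hfg⟩ := hf (ε / 2) (by positivity)
  obtain ⟨h, hh, hgh⟩ := hg (ε / 2) (by positivity)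
  refine ⟨h, hh, fun n => ?_⟩
  calc ‖f n - h n‖ = ‖(f n - g n) + (g n - h n)‖ := by rw [sub_add_sub_cancel]
    _ ≤ ‖f n - g n‖ + ‖g n - h n‖ := norm_add_le _ _
    _ ≤ ε / 2 + ε / 2 := add_le_add (hfg n) (hgh n)
    _ = ε := by ring

theorem InH.add {f g : ℤ → ℂ} (hf : InH f) (hg : InH g) : InH (fun n => f n + g n) := by
  intro ε hε
  obtain ⟨f', hf', h1⟩ := hf (ε / 2) (by positivity)
  obtain ⟨g', hg', h2⟩ := hg (ε / 2) (by positivity)
  refine ⟨fun n => f' n + g' n, hf'.add hg', fun n => ?_⟩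
  calc ‖f n + g n - (f' n + g' n)‖ = ‖(f n - f' n) + (g n - g' n)‖ := by
        rw [add_sub_add_comm]
    _ ≤ ‖f n - f' n‖ + ‖g n - g' n‖ := norm_add_le _ _
    _ ≤ ε / 2 + ε / 2 := add_le_add (h1 n) (h2 n)
    _ = ε := by ring

theorem InH.conj {f : ℤ → ℂ} (hf : InH f) : InH (fun n => (starRingEnd ℂ) (f n)) := by
  intro ε hε
  obtain ⟨f', hf', h1⟩ := hf ε hε
  refine ⟨_, hf'.conj, fun n => ?_⟩
  rw [← map_sub, RCLike.norm_conj]
  exact h1 n

theorem InH.shift {f : ℤ → ℂ} (hf : InH f) (k : ℤ) : InH (fun n => f (n + k)) := by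
  intro ε hε
  obtain ⟨f', hf', h1⟩ := hf ε hε
  exact ⟨_, hf'.shift k, fun n => h1 (n + k)⟩

theorem InH.mul {f g : ℤ → ℂ} (hf : InH f) (hg : InH g) : InH (fun n => f n * g n) := by
  obtain ⟨M, hM⟩ := hf.bounded
  obtain ⟨L, hL⟩ := hg.bounded
  have hM0 : 0 ≤ M := (norm_nonneg _).trans (hM 0)
  have hL0 : 0 ≤ L := (norm_nonneg _).trans (hL 0)
  intro ε hε
  let δ : ℝ := min 1 (ε / (M + L + 1))
  have hδ : 0 < δ := lt_min one_pos (by positivity)
  have hδ1 : δ ≤ 1 := min_le_left _ _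
  have hδ2 : δ * (M + L + 1) ≤ ε := by
    have : δ ≤ ε / (M + L + 1) := min_le_right _ _
    rwa [le_div_iff₀ (by positivity)] at this
  obtain ⟨f', hf', h1⟩ := hf δ hδ
  obtain ⟨g', hg', h2⟩ := hg δ hδ
  refine ⟨_, hf'.mul hg', fun n => ?_⟩
  have hf'n : ‖f' n‖ ≤ M + 1 := by
    calc ‖f' n‖ = ‖f n - (f n - f' n)‖ := by rw [sub_sub_cancel]
      _ ≤ ‖f n‖ + ‖f n - f' n‖ := norm_sub_le _ _
      _ ≤ M + 1 := add_le_add (hM n) ((h1 n).trans hδ1)
  calc ‖f n * g n - f' n * g' n‖ = ‖(f n - f' n) * g n + f' n * (g n - g' n)‖ := by ring_nf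
    _ ≤ ‖(f n - f' n) * g n‖ + ‖f' n * (g n - g' n)‖ := norm_add_le _ _
    _ = ‖f n - f' n‖ * ‖g n‖ + ‖f' n‖ * ‖g n - g' n‖ := by rw [norm_mul, norm_mul]
    _ ≤ δ * L + (M + 1) * δ := by
        refine add_le_add ?_ ?_
        · exact mul_le_mul (h1 n) (hL n) (norm_nonneg _) hδ.le
        · exact mul_le_mul hf'n (h2 n) (norm_nonneg _) (by positivity)
    _ = δ * (M + L + 1) := by ring
    _ ≤ ε := hδ2

theorem InH.const (c : ℂ) : InH (fun _ => c) := by
  have := (IsPD.one.inB.smul c).inH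
  simpa using this

theorem InH.poly {f : ℤ → ℂ} (hf : InH f) (p : Polynomial ℂ) : InH (fun n => p.eval (f n)) := by
  induction p using Polynomial.induction_on' with
  | add p q hp hq => simpa using hp.add hq
  | monomial k a =>
    induction k with
    | zero => simpa using InH.const a
    | succ k ih =>
      have := ih.mul hf
      refine (iff_of_eq (congrArg InH ?_)).1 this
      funext n
      simp [pow_succ, mul_assoc]

theorem InH.comp {f : ℤ → ℝ} (hf : InH (fun n => (f n : ℂ))) (hf01 : ∀ n, f n ∈ Set.Icc (0 : ℝ) 1)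
    (g : ℝ → ℝ) (hg : Continuous g) : InH (fun n => ((g (f n) : ℝ) : ℂ)) := by
  refine InH.closed ?_
  intro ε hε
  obtain ⟨p, hp⟩ := exists_polynomial_near_of_continuousOn 0 1 g hg.continuousOn ε hε
  refine ⟨_, hf.poly (p.map (algebraMap ℝ ℂ)), fun n => ?_⟩
  have h1 := hp (f n) (hf01 n)
  have h2 : (p.map (algebraMap ℝ ℂ)).eval ((f n : ℝ) : ℂ) = ((p.eval (f n) : ℝ) : ℂ) := by
    rw [Polynomial.eval_map]
    exact (Polynomial.hom_eval₂ p (RingHom.id ℝ) (algebraMap ℝ ℂ) (f n)).symm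
  rw [h2, ← Complex.ofReal_sub, Complex.norm_real, Real.norm_eq_abs, abs_sub_comm]
  exact h1.le

end BAlgebra

section Coeff

theorem memLp_fourier_mul (μ : Measure TT) (k : ℤ) (g : TT → ℂ) (hg : MemLp g 2 μ) :
    MemLp (fun t => fourier k t * g t) 2 μ := by
  refine hg.of_le ((fourier k).continuous.aestronglyMeasurable.mul hg.1) ?_
  refine Filter.Eventually.of_forall fun t => ?_
  rw [norm_mul, fourier_norm_apply, one_mul]

/-- multiplication by `e^{ikt}` on `L²(μ)` -/
noncomputable def mulFl (μ : Measure TT) (k : ℤ) : Lp ℂ 2 μ →ₗ[ℂ] Lp ℂ 2 μ where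
  toFun g := (memLp_fourier_mul μ k g (Lp.memLp g)).toLp
  map_add' g h := by
    rw [← MemLp.toLp_add]
    refine MemLp.toLp_congr _ _ ?_
    filter_upwards [Lp.coeFn_add g h] with t ht
    rw [ht, Pi.add_apply, Pi.add_apply, mul_add]
  map_smul' c g := by
    rw [RingHom.id_apply, ← MemLp.toLp_const_smul]
    refine MemLp.toLp_congr _ _ ?_
    filter_upwards [Lp.coeFn_smul c g] with t ht
    rw [ht, Pi.smul_apply, Pi.smul_apply, smul_eq_mul, smul_eq_mul]
    ring

theorem mulFl_toLp (μ : Measure TT) (k : ℤ) (g : TT → ℂ) (hg : MemLp g 2 μ) :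
    mulFl μ k hg.toLp = (memLp_fourier_mul μ k g hg).toLp := by
  refine MemLp.toLp_congr (memLp_fourier_mul μ k _ (Lp.memLp _)) (memLp_fourier_mul μ k g hg) ?_
  filter_upwards [hg.coeFn_toLp] with t ht
  rw [ht]

theorem mulFl_mulFl (μ : Measure TT) (k l : ℤ) (g : Lp ℂ 2 μ) :
    mulFl μ k (mulFl μ l g) = mulFl μ (k + l) g := by
  have h : mulFl μ l g = (memLp_fourier_mul μ l g (Lp.memLp g)).toLp := rfl
  rw [h, mulFl_toLp]
  refine MemLp.toLp_congr (memLp_fourier_mul μ k _ (memLp_fourier_mul μ l _ (Lp.memLp g)))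
    (memLp_fourier_mul μ (k + l) _ (Lp.memLp g)) ?_
  refine Filter.Eventually.of_forall fun t => ?_
  simp only
  rw [fourier_add, mul_assoc]

theorem mulFl_zero (μ : Measure TT) (g : Lp ℂ 2 μ) : mulFl μ 0 g = g := by
  have h : mulFl μ 0 g = (memLp_fourier_mul μ 0 g (Lp.memLp g)).toLp := rfl
  rw [h]
  conv_rhs => rw [← Lp.toLp_coeFn g (Lp.memLp g)]
  refine MemLp.toLp_congr _ _ ?_
  refine Filter.Eventually.of_forall fun t => ?_
  simp only
  rw [fourier_zero, one_mul]

noncomputable def mulF (μ : Measure TT) (k : ℤ) : Lp ℂ 2 μ ≃ₗᵢ[ℂ] Lp ℂ 2 μ where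
  toLinearEquiv := LinearEquiv.ofLinearMap (mulFl μ k) (mulFl μ (-k))
    (by ext1 g; simp [mulFl_mulFl, mulFl_zero]) (by ext1 g; simp [mulFl_mulFl, mulFl_zero])
  norm_map' g := by
    change ‖(memLp_fourier_mul μ k g (Lp.memLp g)).toLp‖ = ‖g‖
    rw [Lp.norm_toLp, Lp.norm_def]
    congr 1
    refine eLpNorm_congr_norm_ae ?_
    refine Filter.Eventually.of_forall fun t => ?_
    rw [norm_mul, fourier_norm_apply, one_mul]

theorem mulF_apply (μ : Measure TT) (k : ℤ) (g : Lp ℂ 2 μ) : mulF μ k g = mulFl μ k g := rfl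

noncomputable def mulFHom (μ : Measure TT) : Multiplicative ℤ →* (Lp ℂ 2 μ ≃ₗᵢ[ℂ] Lp ℂ 2 μ) where
  toFun k := mulF μ k.toAdd
  map_one' := by
    ext1 g
    rw [mulF_apply, toAdd_one, mulFl_zero]; rfl
  map_mul' k l := by
    ext1 g
    rw [mulF_apply, toAdd_mul, ← mulFl_mulFl]; rfl

theorem mulF_pow (μ : Measure TT) (n : ℤ) : mulF μ 1 ^ n = mulF μ n := by
  have h := map_zpow (mulFHom μ) (Multiplicative.ofAdd 1) n
  rw [← ofAdd_zsmul, smul_eq_mul, mul_one] at h
  exact h.symm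

/-- matrix coefficients of unitary operators -/
def IsCoeff (h : ℤ → ℂ) : Prop :=
  ∃ (E : Type) (_ : NormedAddCommGroup E) (_ : InnerProductSpace ℂ E) (_ : CompleteSpace E)
    (U : E ≃ₗᵢ[ℂ] E) (ξ η : E), ∀ n : ℤ, h n = inner ℂ η ((U ^ n) ξ)

theorem IsCoeff.of_hatm (μ : Measure TT) [IsFiniteMeasure μ] : IsCoeff (hatm μ) := by
  have h1 : MemLp (fun _ : TT => (1 : ℂ)) 2 μ := memLp_const 1
  refine ⟨Lp ℂ 2 μ, inferInstance, inferInstance, inferInstance, mulF μ 1, h1.toLp, h1.toLp, ?_⟩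
  intro n
  rw [mulF_pow, mulF_apply, mulFl_toLp, L2.inner_def]
  unfold hatm
  refine integral_congr_ae ?_
  filter_upwards [h1.coeFn_toLp, (memLp_fourier_mul μ n (fun _ => 1) h1).coeFn_toLp] with t h2 h3
  rw [h2, h3]
  simp

theorem withLpProdCongr_mul {E F : Type} [NormedAddCommGroup E] [InnerProductSpace ℂ E]
    [NormedAddCommGroup F] [InnerProductSpace ℂ F] (U U' : E ≃ₗᵢ[ℂ] E) (W W' : F ≃ₗᵢ[ℂ] F) :
    LinearIsometryEquiv.withLpProdCongr 2 (U * U') (W * W') =
      LinearIsometryEquiv.withLpProdCongr 2 U W * LinearIsometryEquiv.withLpProdCongr 2 U' W' := by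
  ext1 x
  rfl

noncomputable def prodHom (E F : Type) [NormedAddCommGroup E] [InnerProductSpace ℂ E]
    [NormedAddCommGroup F] [InnerProductSpace ℂ F] :
    (E ≃ₗᵢ[ℂ] E) × (F ≃ₗᵢ[ℂ] F) →* (WithLp 2 (E × F) ≃ₗᵢ[ℂ] WithLp 2 (E × F)) where
  toFun p := LinearIsometryEquiv.withLpProdCongr 2 p.1 p.2
  map_one' := by ext1 x; rfl
  map_mul' p q := withLpProdCongr_mul _ _ _ _

theorem IsCoeff.add {f g : ℤ → ℂ} (hf : IsCoeff f) (hg : IsCoeff g) :
    IsCoeff (fun n => f n + g n) := by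
  obtain ⟨E, _, _, _, U, ξ, η, hf⟩ := hf
  obtain ⟨F, _, _, _, W, ξ', η', hg⟩ := hg
  refine ⟨WithLp 2 (E × F), inferInstance, inferInstance, inferInstance,
    prodHom E F (U, W), WithLp.toLp 2 (ξ, ξ'), WithLp.toLp 2 (η, η'), ?_⟩
  intro n
  rw [← map_zpow]
  change f n + g n = inner ℂ (WithLp.toLp 2 (η, η')) (WithLp.toLp 2 ((U ^ n) ξ, (W ^ n) ξ'))
  rw [WithLp.prod_inner_apply, hf n, hg n]

theorem IsCoeff.smul {f : ℤ → ℂ} (hf : IsCoeff f) (c : ℂ) : IsCoeff (fun n => c * f n) := by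
  obtain ⟨E, _, _, _, U, ξ, η, hf⟩ := hf
  refine ⟨E, inferInstance, inferInstance, inferInstance, U, ξ, (starRingEnd ℂ c) • η, ?_⟩
  intro n
  simp only
  rw [hf n, inner_smul_left, Complex.conj_conj]

theorem InB.isCoeff {f : ℤ → ℂ} (hf : InB f) : IsCoeff f := by
  obtain ⟨a, b, c, d, _, _, _, _, hf⟩ := hf
  have h := ((IsCoeff.of_hatm a).add ((IsCoeff.of_hatm b).smul (-1))).add
    (((IsCoeff.of_hatm c).add ((IsCoeff.of_hatm d).smul (-1))).smul Complex.I)
  refine (iff_of_eq (congrArg IsCoeff ?_)).1 h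
  funext n
  rw [hf]
  ring

end Coeff

section ShiftLimits

theorem hatm_density (μ : Measure TT) (g : TT → ℝ) (hg : Continuous g)
    (hg0 : ∀ t, 0 ≤ g t) (n : ℤ) :
    hatm (μ.withDensity (fun t => ENNReal.ofReal (g t))) n = ∫ t, fourier n t * (g t : ℂ) ∂μ := by
  unfold hatm
  have h1 : μ.withDensity (fun t => ENNReal.ofReal (g t)) =
    μ.withDensity (fun t => ((Real.toNNReal (g t) : NNReal) : ENNReal)) := rfl
  rw [h1, integral_withDensity_eq_integral_smul (by fun_prop)]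
  refine integral_congr_ae (Filter.Eventually.of_forall ?_)
  intro t
  simp only
  rw [NNReal.smul_def, Real.coe_toNNReal _ (hg0 t), Complex.real_smul]
  ring

theorem density_limit (μ : Measure TT) [IsFiniteMeasure μ] (g : ℤ → TT → ℝ)
    (hg : ∀ k, Continuous (g k)) (hg0 : ∀ k t, 0 ≤ g k t) (hg2 : ∀ k t, g k t ≤ 2)
    (W : Ultrafilter ℤ) :
    ∃ ν : Measure TT, IsFiniteMeasure ν ∧ ∀ n, Tendsto
      (fun k => ∫ t, fourier n t * (g k t : ℂ) ∂μ) W (𝓝 (hatm ν n)) := by
  have hfin : ∀ k, IsFiniteMeasure (μ.withDensity (fun t => ENNReal.ofReal (g k t))) := by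
    intro k
    refine isFiniteMeasure_withDensity_ofReal ?_
    refine HasFiniteIntegral.of_bounded (C := 2) (Filter.Eventually.of_forall ?_)
    intro t
    rw [Real.norm_of_nonneg (hg0 k t)]
    exact hg2 k t
  let P : ℤ → FiniteMeasure TT := fun k =>
    ⟨μ.withDensity (fun t => ENNReal.ofReal (g k t)), hfin k⟩
  let μ' : FiniteMeasure TT := ⟨μ, inferInstance⟩
  let C : NNReal := 2 * μ'.mass
  have hmass : ∀ k, (P k).mass ≤ C := by
    intro k
    have h1 : (μ.withDensity (fun t => ENNReal.ofReal (g k t))) Set.univ ≤ 2 * μ Set.univ := by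
      rw [withDensity_apply _ MeasurableSet.univ, Measure.restrict_univ]
      calc ∫⁻ t, ENNReal.ofReal (g k t) ∂μ ≤ ∫⁻ _, 2 ∂μ := by
            refine lintegral_mono fun t => ?_
            calc ENNReal.ofReal (g k t) ≤ ENNReal.ofReal 2 := ENNReal.ofReal_le_ofReal (hg2 k t)
              _ = 2 := by norm_num
        _ = 2 * μ Set.univ := by rw [lintegral_const]
    have h2 : ((P k).mass : ENNReal) ≤ ((C : NNReal) : ENNReal) := by
      rw [FiniteMeasure.ennreal_mass]
      refine h1.trans ?_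
      simp only [C]
      rw [ENNReal.coe_mul, FiniteMeasure.ennreal_mass]
      rfl
    exact_mod_cast h2
  have hcomp := isCompact_setOfPred_finiteMeasure_le_of_compactSpace TT C
  obtain ⟨Q, -, hQ⟩ := hcomp.ultrafilter_le_nhds (W.map P) (by
    rw [le_principal_iff]
    exact Filter.Eventually.of_forall (f := (W : Filter ℤ)) hmass)
  refine ⟨Q, inferInstance, ?_⟩
  intro n
  have h2 : Tendsto P (W : Filter ℤ) (𝓝 Q) := hQ
  have h3 := (FiniteMeasure.tendsto_iff_forall_integral_rclike_tendsto ℂ).1 h2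
    (BoundedContinuousFunction.mkOfCompact (fourier n))
  refine h3.congr ?_
  intro k
  rw [← hatm_density μ (g k) (hg k) (hg0 k)]
  rfl

theorem hatm_shift_eq (μ : Measure TT) [IsFiniteMeasure μ] (n k : ℤ) :
    hatm μ (n + k) = (∫ t, fourier n t * ((1 + (fourier k t : ℂ).re : ℝ) : ℂ) ∂μ) +
      Complex.I * (∫ t, fourier n t * ((1 + (fourier k t : ℂ).im : ℝ) : ℂ) ∂μ) +
      (-(1 + Complex.I)) * hatm μ n := by
  have hc : Continuous (fun t : TT => (fourier k t : ℂ)) := (fourier k).continuous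
  have hi : ∀ (g : TT → ℂ), Continuous g → Integrable (fun t => fourier n t * g t) μ := by
    intro g hg
    have : Continuous (fun t : TT => (fourier n t : ℂ) * g t) := (fourier n).continuous.mul hg
    have hb : ∃ C, ∀ t, ‖(fourier n t : ℂ) * g t‖ ≤ C := by
      obtain ⟨C, hC⟩ := (isCompact_univ (X := TT)).exists_bound_of_continuousOn this.continuousOn
      exact ⟨C, fun t => hC t (Set.mem_univ t)⟩
    obtain ⟨C, hC⟩ := hb
    exact Integrable.of_bound this.aestronglyMeasurable C (Filter.Eventually.of_forall hC)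
  have hi1 := hi (fun t => (((1 + (fourier k t : ℂ).re : ℝ)) : ℂ))
    (Complex.continuous_ofReal.comp (continuous_const.add (Complex.continuous_re.comp hc)))
  have hi2 := hi (fun t => (((1 + (fourier k t : ℂ).im : ℝ)) : ℂ))
    (Complex.continuous_ofReal.comp (continuous_const.add (Complex.continuous_im.comp hc)))
  have hi3 := integrable_fourier μ n
  have hi12 : Integrable (fun t => fourier n t * (((1 + (fourier k t : ℂ).re : ℝ)) : ℂ) +
      Complex.I * (fourier n t * (((1 + (fourier k t : ℂ).im : ℝ)) : ℂ))) μ :=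
    hi1.add (hi2.const_mul _)
  have e : ∀ t : TT, (fourier (n + k) t : ℂ) =
      (fourier n t * (((1 + (fourier k t : ℂ).re : ℝ)) : ℂ) +
      Complex.I * (fourier n t * (((1 + (fourier k t : ℂ).im : ℝ)) : ℂ))) +
      (-(1 + Complex.I)) * fourier n t := by
    intro t
    rw [fourier_add]
    have h4 : (fourier k t : ℂ) = (((fourier k t : ℂ).re : ℝ) : ℂ) +
      (((fourier k t : ℂ).im : ℝ) : ℂ) * Complex.I := (Complex.re_add_im _).symm
    push_cast
    linear_combination (fourier n t : ℂ) * h4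
  unfold hatm
  have e2 : ∫ t, (fourier (n + k) t : ℂ) ∂μ = ∫ t, ((fourier n t * (((1 + (fourier k t : ℂ).re : ℝ)) : ℂ) +
      Complex.I * (fourier n t * (((1 + (fourier k t : ℂ).im : ℝ)) : ℂ))) +
      (-(1 + Complex.I)) * fourier n t) ∂μ :=
    integral_congr_ae (Filter.Eventually.of_forall e)
  rw [e2, integral_add hi12 (hi3.const_mul _), integral_add hi1 (hi2.const_mul _),
    integral_const_mul, integral_const_mul]

theorem hatm_shift_limit (μ : Measure TT) [IsFiniteMeasure μ] (W : Ultrafilter ℤ) :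
    ∃ g : ℤ → ℂ, InB g ∧ ∀ n, Tendsto (fun k => hatm μ (n + k)) W (𝓝 (g n)) := by
  have hre : ∀ (k : ℤ) (t : TT), |(fourier k t : ℂ).re| ≤ 1 := fun k t =>
    (Complex.abs_re_le_norm _).trans (fourier_norm_apply k t).le
  have him : ∀ (k : ℤ) (t : TT), |(fourier k t : ℂ).im| ≤ 1 := fun k t =>
    (Complex.abs_im_le_norm _).trans (fourier_norm_apply k t).le
  have hc : ∀ k : ℤ, Continuous (fun t : TT => (fourier k t : ℂ)) := fun k => (fourier k).continuous
  obtain ⟨ν, hν, h1⟩ := density_limit μ (fun k t => 1 + (fourier k t : ℂ).re)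
    (fun k => continuous_const.add (Complex.continuous_re.comp (hc k)))
    (fun k t => by have := abs_le.1 (hre k t); linarith)
    (fun k t => by have := abs_le.1 (hre k t); linarith) W
  obtain ⟨ν', hν', h2⟩ := density_limit μ (fun k t => 1 + (fourier k t : ℂ).im)
    (fun k => continuous_const.add (Complex.continuous_im.comp (hc k)))
    (fun k t => by have := abs_le.1 (him k t); linarith)
    (fun k t => by have := abs_le.1 (him k t); linarith) W
  refine ⟨_, ((InB.of_hatm ν).add (InB.of_hatm ν').mul_I).add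
    ((InB.of_hatm μ).smul (-(1 + Complex.I))), ?_⟩
  intro n
  have h3 := ((h1 n).add ((h2 n).const_mul Complex.I)).add_const ((-(1 + Complex.I)) * hatm μ n)
  refine h3.congr ?_
  intro k
  rw [hatm_shift_eq]

theorem InB.shift_limit {f : ℤ → ℂ} (hf : InB f) (W : Ultrafilter ℤ) :
    ∃ g : ℤ → ℂ, InB g ∧ ∀ n, Tendsto (fun k => f (n + k)) W (𝓝 (g n)) := by
  obtain ⟨a, b, c, d, _, _, _, _, hf⟩ := hf
  obtain ⟨ga, hga, ha⟩ := hatm_shift_limit a W
  obtain ⟨gb, hgb, hb⟩ := hatm_shift_limit b W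
  obtain ⟨gc, hgc, hc⟩ := hatm_shift_limit c W
  obtain ⟨gd, hgd, hd⟩ := hatm_shift_limit d W
  refine ⟨_, (hga.add hgb.neg).add (hgc.add hgd.neg).mul_I, ?_⟩
  intro n
  have h := ((ha n).add (hb n).neg).add (((hc n).add (hd n).neg).const_mul Complex.I)
  refine h.congr ?_
  intro k
  rw [hf]
  ring

theorem exists_ultrafilter {X : Type*} [TopologicalSpace X] (φ : ℤ → X) (x : X)
    (h : x ∈ closure (Set.range φ)) : ∃ W : Ultrafilter ℤ, Tendsto φ W (𝓝 x) := by
  have hne : (comap φ (𝓝 x)).NeBot := by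
    rw [comap_neBot_iff]
    intro t ht
    rw [mem_closure_iff_nhds] at h
    obtain ⟨_, hy, n, rfl⟩ := h t ht
    exact ⟨n, hy⟩
  refine ⟨Ultrafilter.of (comap φ (𝓝 x)), ?_⟩
  exact tendsto_comap.mono_left (Ultrafilter.of_le _)

theorem orbit_limit {X : Type*} [TopologicalSpace X] (T : X ≃ₜ X) (x x₁ : X) (W : Ultrafilter ℤ)
    (h : Tendsto (fun k : ℤ => (T ^ k) x₁) W (𝓝 x)) (F : C(X, ℂ)) (n : ℤ) :
    Tendsto (fun k : ℤ => F ((T ^ (n + k)) x₁)) W (𝓝 (F ((T ^ n) x))) := by
  have h1 := (F.continuous.tendsto _).comp (((T ^ n).continuous.tendsto x).comp h)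
  refine h1.congr ?_
  intro k
  simp only [Function.comp_apply]
  rw [zpow_add]
  rfl

theorem inH_other {X : Type*} [TopologicalSpace X] (T : X ≃ₜ X) (x x₁ : X)
    (h : x ∈ closure (Set.range fun k : ℤ => (T ^ k) x₁)) (F : C(X, ℂ))
    (hF : InH fun n => F ((T ^ n) x₁)) : InH fun n => F ((T ^ n) x) := by
  obtain ⟨W, hW⟩ := exists_ultrafilter _ x h
  intro ε hε
  obtain ⟨g, hg, hFg⟩ := hF ε hε
  obtain ⟨g', hg', hlim⟩ := hg.shift_limit W
  refine ⟨g', hg', fun n => ?_⟩
  have h1 := ((orbit_limit T x x₁ W hW F n).sub (hlim n)).norm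
  refine le_of_tendsto h1 (Filter.Eventually.of_forall ?_)
  intro k
  exact hFg (n + k)

theorem inB_other {X : Type*} [TopologicalSpace X] (T : X ≃ₜ X) (x x₁ : X)
    (h : x ∈ closure (Set.range fun k : ℤ => (T ^ k) x₁)) (F : C(X, ℂ))
    (hF : InB fun n => F ((T ^ n) x₁)) : InB fun n => F ((T ^ n) x) := by
  obtain ⟨W, hW⟩ := exists_ultrafilter _ x h
  obtain ⟨g', hg', hlim⟩ := hF.shift_limit W
  refine (iff_of_eq (congrArg InB ?_)).1 hg'
  funext n
  exact tendsto_nhds_unique (hlim n) (orbit_limit T x x₁ W hW F n)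

end ShiftLimits

section Main

theorem pp_isPD (N : ℕ) : IsPD (fun n => ((pp N n : ℝ) : ℂ)) := by
  induction N with
  | zero =>
    have := IsPD.one
    refine (iff_of_eq (congrArg IsPD ?_)).1 this
    funext n
    simp [pp]
  | succ N ih =>
    have h := ih.mul (IsPD.cos (cc N) (Real.pi / 2 ^ (N ^ 2)) (cc_pos N).le (cc_le_one N))
    refine (iff_of_eq (congrArg IsPD ?_)).1 h
    funext n
    rw [pp_succ, Complex.ofReal_mul]
    congr 2
    unfold aa
    congr 3
    ring

theorem ff_isPD : IsPD (fun n => ((ff n : ℝ) : ℂ)) := by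
  refine IsPD.lim pp_isPD ?_
  intro n
  exact (Complex.continuous_ofReal.tendsto _).comp (ff_tendsto n)

/-- the truncation -/
noncomputable def gg (t : ℝ) : ℝ := max (t - 1 / 2) 0

theorem gg_cont : Continuous gg := by unfold gg; fun_prop

theorem gg_zero {t : ℝ} (ht : t ≤ 1 / 2) : gg t = 0 := by
  unfold gg; exact max_eq_right (by linarith)

theorem gg_mem {t : ℝ} (h1 : t ≤ 1) : gg t ∈ Set.Icc (0 : ℝ) 1 := by
  unfold gg
  exact ⟨le_max_right _ _, max_le (by linarith) (by norm_num)⟩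

/-- the shift on `ℝ^ℤ` -/
def sh : (ℤ → ℝ) ≃ₜ (ℤ → ℝ) where
  toFun x n := x (n + 1)
  invFun x n := x (n - 1)
  left_inv x := by funext n; simp
  right_inv x := by funext n; simp
  continuous_toFun := by fun_prop
  continuous_invFun := by fun_prop

theorem sh_apply (x : ℤ → ℝ) (n : ℤ) : sh x n = x (n + 1) := rfl

theorem sh_symm_apply (x : ℤ → ℝ) (n : ℤ) : sh.symm x n = x (n - 1) := rfl

/-- the point `n ↦ g (t f (n + k))` -/
noncomputable def yt (t : ℝ) (k : ℤ) : ℤ → ℝ := fun n => gg (t * ff (n + k))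

theorem sh_yt (t : ℝ) (k : ℤ) : sh (yt t k) = yt t (k + 1) := by
  funext n
  rw [sh_apply]
  unfold yt
  rw [add_assoc, add_comm 1 k]

theorem sh_symm_yt (t : ℝ) (k : ℤ) : sh.symm (yt t k) = yt t (k - 1) := by
  funext n
  rw [sh_symm_apply]
  unfold yt
  congr 3
  ring

/-- the orbit closure of `y₀ = g ∘ f` -/
def YY : Set (ℤ → ℝ) := closure (Set.range fun k : ℤ => yt 1 k)

theorem YY_closed : IsClosed YY := isClosed_closure

theorem YY_sh {x : ℤ → ℝ} (hx : x ∈ YY) : sh x ∈ YY := by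
  have h : Set.MapsTo sh (Set.range fun k : ℤ => yt 1 k) (Set.range fun k : ℤ => yt 1 k) := by
    rintro _ ⟨k, rfl⟩
    exact ⟨k + 1, (sh_yt 1 k).symm⟩
  exact map_mem_closure sh.continuous hx h

theorem YY_sh_symm {x : ℤ → ℝ} (hx : x ∈ YY) : sh.symm x ∈ YY := by
  have h : Set.MapsTo sh.symm (Set.range fun k : ℤ => yt 1 k)
      (Set.range fun k : ℤ => yt 1 k) := by
    rintro _ ⟨k, rfl⟩
    exact ⟨k - 1, (sh_symm_yt 1 k).symm⟩
  exact map_mem_closure sh.symm.continuous hx h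

theorem YY_subset : YY ⊆ Set.pi Set.univ (fun _ : ℤ => Set.Icc (0 : ℝ) 1) := by
  refine closure_minimal ?_ (isClosed_set_pi fun _ _ => isClosed_Icc)
  rintro _ ⟨k, rfl⟩ n -
  refine gg_mem ?_
  rw [one_mul]; exact ff_le_one _

instance : CompactSpace YY :=
  isCompact_iff_compactSpace.1
    ((isCompact_univ_pi fun _ => isCompact_Icc).of_isClosed_subset YY_closed YY_subset)

/-- the shift on `Y` -/
def TY : YY ≃ₜ YY where
  toFun x := ⟨sh x.1, YY_sh x.2⟩
  invFun x := ⟨sh.symm x.1, YY_sh_symm x.2⟩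
  left_inv x := by ext1; exact sh.symm_apply_apply x.1
  right_inv x := by ext1; exact sh.apply_symm_apply x.1
  continuous_toFun := (sh.continuous.comp continuous_subtype_val).subtype_mk _
  continuous_invFun := (sh.symm.continuous.comp continuous_subtype_val).subtype_mk _

theorem yt_orbit_mem (t : ℝ) (h : yt t 0 ∈ YY) (k : ℤ) : yt t k ∈ YY := by
  induction k using Int.induction_on with
  | zero => exact h
  | succ k ih => rw [← sh_yt]; exact YY_sh ih
  | pred k ih => rw [← sh_symm_yt]; exact YY_sh_symm ih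

theorem TY_pow (t : ℝ) (h : yt t 0 ∈ YY) (k l : ℤ) :
    (TY ^ k) ⟨yt t l, yt_orbit_mem t h l⟩ = ⟨yt t (l + k), yt_orbit_mem t h (l + k)⟩ := by
  induction k using Int.induction_on generalizing l with
  | zero => simp
  | succ k ih =>
    rw [zpow_add_one]
    change (TY ^ (k : ℤ)) (TY ⟨yt t l, _⟩) = _
    have : TY ⟨yt t l, yt_orbit_mem t h l⟩ = ⟨yt t (l + 1), yt_orbit_mem t h (l + 1)⟩ := by
      ext1; exact sh_yt t l
    rw [this, ih]
    congr 2
    ring
  | pred k ih =>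
    rw [zpow_sub_one]
    change (TY ^ (-(k : ℤ))) (TY.symm ⟨yt t l, _⟩) = _
    have : TY.symm ⟨yt t l, yt_orbit_mem t h l⟩ = ⟨yt t (l - 1), yt_orbit_mem t h (l - 1)⟩ := by
      ext1; exact sh_symm_yt t l
    rw [this, ih]
    congr 2
    ring

theorem yt_one_mem : yt 1 0 ∈ YY := subset_closure ⟨0, rfl⟩

theorem yt_lim (t : ℝ) (m : ℕ) (l : ℤ) :
    Tendsto (fun i => yt t (l + kk m i)) atTop (𝓝 (yt (t * dd m) l)) := by
  rw [tendsto_pi_nhds]
  intro n
  unfold yt
  have h1 := (gg_cont.tendsto _).comp ((ff_kk m (n + l)).const_mul t)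
  rw [← mul_assoc] at h1
  refine h1.congr ?_
  intro i
  simp only [Function.comp_apply]
  rw [add_assoc]

theorem yt_mem_step (t : ℝ) (m : ℕ) (h : yt t 0 ∈ YY) : yt (t * dd m) 0 ∈ YY := by
  refine YY_closed.mem_of_tendsto (yt_lim t m 0) (Filter.Eventually.of_forall ?_)
  intro i
  exact yt_orbit_mem t h _

theorem yt_mem (m j : ℕ) : yt (dd m ^ j) 0 ∈ YY := by
  induction j with
  | zero => simpa using yt_one_mem
  | succ j ih => rw [pow_succ]; exact yt_mem_step _ m ih

/-- points of `Y` -/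
noncomputable def pt (m j : ℕ) (l : ℤ) : YY := ⟨yt (dd m ^ j) l, yt_orbit_mem _ (yt_mem m j) l⟩

/-- base point -/
noncomputable def y₀ : YY := ⟨yt 1 0, yt_one_mem⟩

theorem TY_pow_y₀ (k : ℤ) : (TY ^ k) y₀ = ⟨yt 1 k, yt_orbit_mem 1 yt_one_mem k⟩ := by
  have := TY_pow 1 yt_one_mem k 0
  simp only [zero_add] at this
  exact this

theorem pt_zero (m : ℕ) (l : ℤ) : pt m 0 l = (TY ^ l) y₀ := by
  rw [TY_pow_y₀]
  unfold pt
  simp only [pow_zero]

theorem yt_half (m : ℕ) (l : ℤ) : yt (dd m ^ (m + 1)) l = 0 := by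
  funext n
  unfold yt
  rw [dd_pow]
  refine gg_zero ?_
  have := ff_le_one (n + l)
  linarith

theorem zero_mem : (0 : ℤ → ℝ) ∈ YY := by
  rw [← yt_half 0 0]; exact yt_mem 0 1

/-- the fixed point of `Y` -/
noncomputable def z₀ : YY := ⟨0, zero_mem⟩

theorem pt_last (m : ℕ) (l : ℤ) : pt m (m + 1) l = z₀ := by
  ext1; exact yt_half m l

theorem pt_lim (m j : ℕ) (l : ℤ) :
    Tendsto (fun i => pt m j (l + kk m i)) atTop (𝓝 (pt m (j + 1) l)) := by
  rw [tendsto_subtype_rng]
  have := yt_lim (dd m ^ j) m l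
  rw [← pow_succ] at this
  exact this

theorem pt_one_lim (l : ℤ) : Tendsto (fun m => pt m 1 l) atTop (𝓝 ((TY ^ l) y₀)) := by
  rw [tendsto_subtype_rng, TY_pow_y₀, tendsto_pi_nhds]
  intro n
  simp only [pt, yt, pow_one]
  exact (gg_cont.tendsto _).comp (dd_tendsto.mul_const _)

theorem pt_one_ne (m : ℕ) (l : ℤ) : pt m 1 l ≠ (TY ^ l) y₀ := by
  rw [TY_pow_y₀]
  intro h
  have h1 := congrArg Subtype.val h
  have h2 := congrFun h1 (-l)
  simp only [pt, yt, pow_one, neg_add_cancel, ff_zero, mul_one] at h2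
  have h3 := dd_lt_one m
  unfold gg at h2
  rcases le_total (dd m - 1 / 2) 0 with h4 | h4
  · rw [max_eq_right h4, max_eq_left (by norm_num)] at h2
    norm_num at h2
  · rw [max_eq_left h4, max_eq_left (by norm_num)] at h2
    linarith

theorem TY_dense : Dense (Set.range fun n : ℤ => (TY ^ n) y₀) := by
  intro y
  rw [closure_subtype]
  have : (Subtype.val '' Set.range fun n : ℤ => (TY ^ n) y₀) = Set.range fun k : ℤ => yt 1 k := by
    ext x
    constructor
    · rintro ⟨_, ⟨k, rfl⟩, rfl⟩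
      exact ⟨k, by simp only [TY_pow_y₀]⟩
    · rintro ⟨k, rfl⟩
      exact ⟨_, ⟨k, rfl⟩, by simp only [TY_pow_y₀]⟩
  rw [this]
  exact y.2

theorem no_isolated (y : YY) : ¬ IsOpen ({y} : Set YY) := by
  intro h
  obtain ⟨_, hx, n, rfl⟩ := TY_dense.inter_open_nonempty {y} h ⟨y, rfl⟩
  have hx' : (TY ^ n) y₀ = y := hx
  have h1 : ∀ᶠ m in atTop, pt m 1 n ∈ ({y} : Set YY) :=
    (pt_one_lim n).eventually (h.mem_nhds hx)
  obtain ⟨m, hm⟩ := h1.exists
  have hm' : pt m 1 n = y := hm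
  exact pt_one_ne m n (by rw [hm', hx'])

/-- the matrix coefficient criterion -/
theorem coeff_const (F : YY → ℂ) (hF : Continuous F)
    (h : IsCoeff (fun n => F ((TY ^ n) y₀) - F z₀)) : ∀ n : ℤ, F ((TY ^ n) y₀) = F z₀ := by
  obtain ⟨E, _, _, _, U, ξ, η, hh⟩ := h
  intro n
  have h1 : ∀ m, F (pt m 1 n) = F z₀ := by
    intro m
    have := key U ξ η m (kk m) (fun j l => F (pt m j l) - F z₀) ?_ ?_ ?_ n
    · simpa [sub_eq_zero] using this
    · intro n
      rw [pt_zero]
      exact hh n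
    · intro j n
      exact ((hF.tendsto _).comp (pt_lim m j n)).sub_const _
    · intro n
      rw [pt_last, sub_self]
  have h2 := (hF.tendsto _).comp (pt_one_lim n)
  refine tendsto_nhds_unique h2 ?_
  refine tendsto_const_nhds.congr ?_
  intro m
  exact (h1 m).symm

theorem inH_orbit (F : C(YY, ℂ)) : InH fun n => F ((TY ^ n) y₀) := by
  let S : StarSubalgebra ℂ C(YY, ℂ) :=
    { carrier := {F | InH fun n => F ((TY ^ n) y₀)}
      mul_mem' := by
        intro a b ha hb
        exact ha.mul hb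
      add_mem' := by
        intro a b ha hb
        exact ha.add hb
      algebraMap_mem' := by
        intro c
        exact InH.const c
      star_mem' := by
        intro a ha
        exact ha.conj }
  have hS : ∀ F, F ∈ S ↔ InH fun n => F ((TY ^ n) y₀) := fun F => Iff.rfl
  have hcoord : ∀ k : ℤ, (⟨fun y : YY => ((y.1 k : ℝ) : ℂ), Complex.continuous_ofReal.comp
      ((continuous_apply k).comp continuous_subtype_val)⟩ : C(YY, ℂ)) ∈ S := by
    intro k
    rw [hS]
    have h1 := (InH.comp ff_isPD.inB.inH (fun n => ⟨ff_nonneg n, ff_le_one n⟩) gg gg_cont).shift k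
    refine (iff_of_eq (congrArg InH ?_)).1 h1
    funext n
    simp only [TY_pow_y₀, ContinuousMap.coe_mk, yt, one_mul]
    rw [add_comm]
  have hsep : S.SeparatesPoints := by
    intro x y hxy
    have : ∃ k, x.1 k ≠ y.1 k := by
      by_contra hcon
      push Not at hcon
      exact hxy (Subtype.ext (funext hcon))
    obtain ⟨k, hk⟩ := this
    refine ⟨_, ⟨_, hcoord k, rfl⟩, ?_⟩
    simpa using hk
  have htop := ContinuousMap.starSubalgebra_topologicalClosure_eq_top_of_separatesPoints S hsep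
  have hF : F ∈ S.topologicalClosure := by rw [htop]; trivial
  refine InH.closed ?_
  intro ε hε
  have hF' : F ∈ closure (S : Set C(YY, ℂ)) := hF
  obtain ⟨G, hG, hFG⟩ := Metric.mem_closure_iff.1 hF' ε hε
  refine ⟨_, hG, fun n => ?_⟩
  have := ContinuousMap.dist_apply_le_dist (f := F) (g := G) ((TY ^ n) y₀)
  rw [dist_eq_norm] at this
  exact this.trans hFG.le

theorem key_universe.{u} {E : Type u} [NormedAddCommGroup E] [InnerProductSpace ℂ E]
    [CompleteSpace E] (U : E ≃ₗᵢ[ℂ] E) (ξ η : E) (F : YY → ℂ) (hF : Continuous F)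
    (h : ∀ n : ℤ, F ((TY ^ n) y₀) - F z₀ = inner ℂ η ((U ^ n) ξ)) :
    ∀ n : ℤ, F ((TY ^ n) y₀) = F z₀ := by
  intro n
  have h1 : ∀ m, F (pt m 1 n) = F z₀ := by
    intro m
    have := key U ξ η m (kk m) (fun j l => F (pt m j l) - F z₀) ?_ ?_ ?_ n
    · simpa [sub_eq_zero] using this
    · intro n
      rw [pt_zero]
      exact h n
    · intro j n
      exact ((hF.tendsto _).comp (pt_lim m j n)).sub_const _
    · intro n
      rw [pt_last, sub_self]
  have h2 := (hF.tendsto _).comp (pt_one_lim n)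
  refine tendsto_nhds_unique h2 ?_
  refine tendsto_const_nhds.congr ?_
  intro m
  exact (h1 m).symm

theorem TY_z₀ : TY z₀ = z₀ := by
  ext1
  funext n
  rfl

theorem main.{u, v} :
    ∃ (X : Type) (_ : TopologicalSpace X) (_ : CompactSpace X) (_ : T2Space X)
      (_ : TopologicalSpace.MetrizableSpace X) (T : X ≃ₜ X),
      RecurrentTransitive T ∧ IsHilbertSystem T ∧
      (∀ (Y : Type v) [TopologicalSpace Y] [CompactSpace Y] [T2Space Y] (R : Y ≃ₜ Y) (π : X → Y),
        IsFactorMap T R π → HilbertRepresentable.{u, v} R → Subsingleton Y) ∧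
      (∀ x₀, IsTransitivePt T x₀ → ∀ F : C(X, ℂ), InB (fun n => F ((T ^ n) x₀)) →
        ∃ c : ℂ, ∀ x, F x = c) := by
  refine ⟨YY, inferInstance, inferInstance, inferInstance, inferInstance, TY,
    ⟨⟨y₀, TY_dense⟩, no_isolated⟩, ⟨⟨y₀, TY_dense⟩, ?_⟩, ?_, ?_⟩
  · intro x₀ _ F
    exact inH_other TY x₀ y₀ (TY_dense x₀) F (inH_orbit F)
  swap
  · intro x₀ hx₀ F hF0
    have hF : InB (fun n => F ((TY ^ n) y₀)) := inB_other TY y₀ x₀ (hx₀ y₀) F hF0
    refine ⟨F z₀, ?_⟩
    have horb : ∀ n : ℤ, F ((TY ^ n) y₀) = F z₀ := by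
      refine coeff_const F F.continuous ?_
      have h1 : InB (fun n => F ((TY ^ n) y₀) + (-(F z₀)) * 1) :=
        hF.add (IsPD.one.inB.smul (-(F z₀)))
      have h2 := h1.isCoeff
      refine (iff_of_eq (congrArg IsCoeff ?_)).1 h2
      funext n
      ring
    intro x
    have hcl : IsClosed {x : YY | F x = F z₀} := isClosed_eq F.continuous continuous_const
    have hsub : (Set.range fun n : ℤ => (TY ^ n) y₀) ⊆ {x : YY | F x = F z₀} := by
      rintro _ ⟨n, rfl⟩
      exact horb n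
    exact hcl.closure_subset_iff.2 hsub (TY_dense x)
  · intro Y _ _ _ R π hfac hHR
    obtain ⟨hπ, hsurj, hequiv⟩ := hfac
    obtain ⟨E, _, _, _, U, Z, e, -, -, he⟩ := hHR
    -- the map to the Hilbert space
    let ψ : YY → E := fun x => (toWeakSpace ℂ E).symm (e (π x) : Weak E)
    have hψT : ∀ x, ψ (TY x) = U (ψ x) := by
      intro x
      have h1 : (e (π (TY x)) : Weak E) = weakMap U (e (π x)) := by rw [hequiv, he]
      have h2 : ψ (TY x) = (toWeakSpace ℂ E).symm (weakMap U (e (π x))) := by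
        simp only [ψ]
        rw [h1]
      rw [h2]
      exact (toWeakSpace ℂ E).symm_apply_apply (U (ψ x))
    have hψc : ∀ v : E, Continuous (fun x => inner ℂ v (ψ x)) := by
      intro v
      have h1 : Continuous (fun w : WeakSpace ℂ E => (innerSL ℂ v) ((toWeakSpace ℂ E).symm w)) :=
        WeakBilin.eval_continuous (topDualPairing ℂ E).flip (innerSL ℂ v)
      exact h1.comp (continuous_subtype_val.comp (e.continuous.comp hπ))
    have hψpow : ∀ (n : ℤ) x, ψ ((TY ^ n) x) = (U ^ n) (ψ x) := by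
      intro n
      induction n using Int.induction_on with
      | zero => intro x; simp
      | succ k ih =>
        intro x
        rw [zpow_add_one, zpow_add_one]
        change ψ ((TY ^ (k : ℤ)) (TY x)) = (U ^ (k : ℤ)) (U (ψ x))
        rw [ih, hψT]
      | pred k ih =>
        intro x
        rw [zpow_sub_one, zpow_sub_one]
        change ψ ((TY ^ (-(k : ℤ))) (TY.symm x)) = (U ^ (-(k : ℤ))) (U.symm (ψ x))
        rw [ih]
        congr 1
        rw [LinearIsometryEquiv.eq_symm_apply]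
        rw [← hψT]
        simp
    have hfix : ∀ n : ℤ, (U ^ n) (ψ z₀) = ψ z₀ := by
      intro n
      rw [← hψpow]
      congr 1
      induction n using Int.induction_on with
      | zero => simp
      | succ k ih =>
        rw [zpow_add_one]
        change (TY ^ (k : ℤ)) (TY z₀) = z₀
        rw [TY_z₀, ih]
      | pred k ih =>
        rw [zpow_sub_one]
        change (TY ^ (-(k : ℤ))) (TY.symm z₀) = z₀
        have : TY.symm z₀ = z₀ := by
          rw [Homeomorph.symm_apply_eq, TY_z₀]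
        rw [this, ih]
    have hconst : ∀ n : ℤ, ψ ((TY ^ n) y₀) = ψ z₀ := by
      intro n
      refine ext_inner_left ℂ ?_
      intro v
      refine key_universe U (ψ y₀ - ψ z₀) v (fun x => inner ℂ v (ψ x)) (hψc v) ?_ n
      intro k
      rw [map_sub, inner_sub_right, hfix, hψpow]
    have hπconst : ∀ n : ℤ, π ((TY ^ n) y₀) = π z₀ := by
      intro n
      have h1 := hconst n
      have h2 : (e (π ((TY ^ n) y₀)) : Weak E) = (e (π z₀) : Weak E) :=
        (toWeakSpace ℂ E).symm.injective h1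
      exact e.injective (Subtype.ext h2)
    have hall : ∀ x : YY, π x = π z₀ := by
      intro x
      have hcl : IsClosed {x : YY | π x = π z₀} := isClosed_eq hπ continuous_const
      have hsub : (Set.range fun n : ℤ => (TY ^ n) y₀) ⊆ {x : YY | π x = π z₀} := by
        rintro _ ⟨n, rfl⟩
        exact hπconst n
      exact hcl.closure_subset_iff.2 hsub (TY_dense x)
    constructor
    intro a b
    obtain ⟨x, rfl⟩ := hsurj a
    obtain ⟨y, rfl⟩ := hsurj b
    rw [hall x, hall y]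

end Main

end Pool.Agent.Helper44.Hilb
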